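import Pool.Agent.Helper46.M8.St.A7
import Pool.Agent.Helper46.M9.Man
import Pool.Agent.Helper46.M8.St.N2
import Pool.Agent.Helper46.M8.Ns

/-!
# M9: smoothness and derivative of the action, Killing fields under projective transformations
-/

open Filter Metric Module Set
open scoped Topology ContDiff Matrix Matrix.Norms.Elementwise ComplexConjugate Manifold

set_option maxSynthPendingDepth 3

namespace Pool.Agent.Helper46.M9
open Pool.Agent.Helper20.PC Pool.Agent.Helper20.HP Pool.Agent.Helper20.M8 Pool.Agent.Helper20.MB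
open Pool.Agent.Helper46.M8 Pool.Agent.Helper81.M9

private lemma N7_eq (g : Mat) (i : Fin 2) :
    (fun x : V × Y9 => dmob g x.1 x.2.2 i) = fun x : V × Y9 =>
      (N1_L g i.succ x.2.2 - mob g x.1 i * N1_L g 0 x.2.2) * (N1_a g 0 x.1)⁻¹ := by
  funext x
  rw [N1_dmob, div_eq_mul_inv]

private lemma N7_mobc {g : Mat} {x : V × Y9} (h : (g *ᵥ Zv x.1) 0 ≠ 0) (i : Fin 2) :
    ContDiffAt ℝ ∞ (fun x : V × Y9 => mob g x.1 i) x :=
  ((contDiffAt_pi.1 (contDiffAt_mob h)) i).comp x contDiffAt_fst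

/-- the projection to the `T`-part. -/
private noncomputable abbrev pr : V × Y9 →L[ℝ] V :=
  pT9.comp (ContinuousLinearMap.snd ℝ V Y9)

private lemma N7_third {g : Mat} {x : V × Y9} (h : (g *ᵥ Zv x.1) 0 ≠ 0) :
    ContDiffAt ℝ ∞ (fun x : V × Y9 => dmob g x.1 x.2.2) x := by
  rw [contDiffAt_pi]
  intro i
  rw [N7_eq]
  have h22 : ContDiff ℝ ∞ (fun x : V × Y9 => x.2.2) := pr.contDiff
  have h1 : ContDiffAt ℝ ∞ (fun x : V × Y9 => N1_L g i.succ x.2.2) x :=
    ((N1_L g i.succ).contDiff.comp h22).contDiffAt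
  have h2 : ContDiffAt ℝ ∞ (fun x : V × Y9 => N1_L g 0 x.2.2) x :=
    ((N1_L g 0).contDiff.comp h22).contDiffAt
  have h3 : ContDiffAt ℝ ∞ (fun x : V × Y9 => N1_a g 0 x.1) x :=
    ((N1_contA g 0).comp contDiff_fst).contDiffAt
  rw [N1_Zv] at h
  exact (h1.sub ((N7_mobc (by rw [N1_Zv]; exact h) i).mul h2)).mul (h3.inv h)

theorem contDiffAt_Phi9 {g : Mat} {x : V × Y9} (h : (g *ᵥ Zv x.1) 0 ≠ 0) :
    ContDiffAt ℝ ∞ (Phi9 g) x := by
  unfold Phi9
  exact ((contDiffAt_mob h).comp x contDiffAt_fst).prodMk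
    (ContDiffAt.prodMk (contDiff_fst.comp contDiff_snd).contDiffAt (N7_third h))

private lemma N7_dthird {g : Mat} {x : V × Y9} (h : (g *ᵥ Zv x.1) 0 ≠ 0) (u : V × Y9) :
    fderiv ℝ (fun x : V × Y9 => dmob g x.1 x.2.2) x u
      = dmob g x.1 u.2.2 + ddmob g x.1 x.2.2 u.1 := by
  have h' := h
  rw [N1_Zv] at h'
  have key : ∀ i : Fin 2, ∃ L : V × Y9 →L[ℝ] ℂ,
      HasFDerivAt (fun x : V × Y9 => dmob g x.1 x.2.2 i) L x ∧
      ∀ u, L u = dmob g x.1 u.2.2 i + ddmob g x.1 x.2.2 u.1 i := by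
    intro i
    obtain ⟨L0, hL0, hL⟩ := N1_hasInv h'
    obtain ⟨L1, hL1, hL1'⟩ := N1_hasMob h' i
    have f1 : HasFDerivAt (fun x : V × Y9 => x.1) (ContinuousLinearMap.fst ℝ V Y9) x :=
      hasFDerivAt_fst
    have f2 : HasFDerivAt (fun x : V × Y9 => x.2.2) pr x := pr.hasFDerivAt
    have g0 := hL0.comp x f1
    have g1 := hL1.comp x f1
    have l1 := (N1_L g i.succ).hasFDerivAt.comp x f2
    have l0 := (N1_L g 0).hasFDerivAt.comp x f2
    have hh := (l1.sub (g1.mul l0)).mul g0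
    refine ⟨(N1_L g i.succ x.2.2 - mob g x.1 i * N1_L g 0 x.2.2) •
          L0.comp (ContinuousLinearMap.fst ℝ V Y9)
        + (N1_a g 0 x.1)⁻¹ • ((N1_L g i.succ).comp pr
            - (mob g x.1 i • (N1_L g 0).comp pr
              + N1_L g 0 x.2.2 • L1.comp (ContinuousLinearMap.fst ℝ V Y9))), ?_, ?_⟩
    · rw [N7_eq]
      exact hh
    · intro u
      simp only [_root_.add_apply, _root_.smul_apply, smul_eq_mul,
        _root_.sub_apply, ContinuousLinearMap.comp_apply,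
        ContinuousLinearMap.coe_fst', ContinuousLinearMap.coe_snd', hL, hL1',
        N1_ddmob, N1_dmob]
      field_simp
      ring
  choose L hL hL' using key
  have hF : HasFDerivAt (fun x : V × Y9 => dmob g x.1 x.2.2) (ContinuousLinearMap.pi L) x := by
    rw [hasFDerivAt_pi']
    exact hL
  rw [hF.fderiv]
  funext i
  simp only [ContinuousLinearMap.coe_pi', Pi.add_apply]
  exact hL' i u

theorem fderiv_Phi9 {g : Mat} {x : V × Y9} (h : (g *ᵥ Zv x.1) 0 ≠ 0) (u : V × Y9) :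
    fderiv ℝ (Phi9 g) x u = dPhi9 g x u := by
  have d1 : HasFDerivAt (fun x : V × Y9 => mob g x.1)
      ((fderiv ℝ (mob g) x.1).comp (ContinuousLinearMap.fst ℝ V Y9)) x :=
    (((contDiffAt_mob h).differentiableAt (by simp)).hasFDerivAt).comp x hasFDerivAt_fst
  have d2 : HasFDerivAt (fun x : V × Y9 => x.2.1)
      ((ContinuousLinearMap.fst ℝ ℂ V).comp (ContinuousLinearMap.snd ℝ V Y9)) x :=
    ((ContinuousLinearMap.fst ℝ ℂ V).comp (ContinuousLinearMap.snd ℝ V Y9)).hasFDerivAt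
  have d3 := ((N7_third h).differentiableAt (by simp)).hasFDerivAt
  have hF : HasFDerivAt (Phi9 g) _ x := d1.prodMk (d2.prodMk d3)
  rw [hF.fderiv]
  simp only [ContinuousLinearMap.prod_apply, ContinuousLinearMap.comp_apply,
    ContinuousLinearMap.coe_fst', ContinuousLinearMap.coe_snd', fderiv_mob h, N7_dthird h, dPhi9]

/-- the derivative of a Killing field under a projective transformation. -/
theorem fderiv_KA_mob (A : Mat) {g : Mat} {z : V} (hg : gᴴ * g = 1) (h : (g *ᵥ Zv z) 0 ≠ 0) (w : V) :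
    fderiv ℝ (KA A) (mob g z) (dmob g z w)
      = dmob g z (fderiv ℝ (KA (gᴴ * A * g)) z w) + ddmob g z (KA (gᴴ * A * g) z) w := by
  have hc : Continuous fun w : V => (g *ᵥ Zv w) 0 := by
    have e : (fun w : V => (g *ᵥ Zv w) 0) = fun w : V => g 0 0 + g 0 1 * w 0 + g 0 2 * w 1 := by
      funext w
      simp [Matrix.mulVec, dotProduct, Fin.sum_univ_three, Zv]
    rw [e]
    fun_prop
  have hev : ∀ᶠ w in 𝓝 z, (g *ᵥ Zv w) 0 ≠ 0 := hc.continuousAt.eventually_ne h
  have e1 : (fun z' => KA A (mob g z')) =ᶠ[𝓝 z] fun z' => dmob g z' (KA (gᴴ * A * g) z') := by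
    filter_upwards [hev] with w hw
    exact KA_mob A hg hw
  have e2 := e1.fderiv_eq (𝕜 := ℝ)
  have hKd : ∀ (B : Mat) (z : V), DifferentiableAt ℝ (KA B) z := fun B z =>
    (A7_has B z).differentiableAt
  have hm : HasFDerivAt (mob g) (fderiv ℝ (mob g) z) z :=
    ((contDiffAt_mob h).differentiableAt (by simp)).hasFDerivAt
  have l1 : fderiv ℝ (fun z' => KA A (mob g z')) z w
      = fderiv ℝ (KA A) (mob g z) (dmob g z w) := by
    have := ((hKd A (mob g z)).hasFDerivAt.comp z hm).fderiv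
    rw [show (fun z' => KA A (mob g z')) = KA A ∘ mob g from rfl, this,
      ContinuousLinearMap.comp_apply, fderiv_mob h]
  -- the right hand side as the derivative of `Phi9`
  let ι : V → V × Y9 := fun z' => (z', (0, KA (gᴴ * A * g) z'))
  have hι : HasFDerivAt ι ((ContinuousLinearMap.id ℝ V).prod
      ((0 : V →L[ℝ] ℂ).prod (fderiv ℝ (KA (gᴴ * A * g)) z))) z :=
    (hasFDerivAt_id z).prodMk ((hasFDerivAt_const (0:ℂ) z).prodMk (hKd _ z).hasFDerivAt)
  have hP : HasFDerivAt (Phi9 g) (fderiv ℝ (Phi9 g) (ι z)) (ι z) :=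
    ((contDiffAt_Phi9 (x := ι z) h).differentiableAt (by simp)).hasFDerivAt
  have hp := pr.hasFDerivAt (x := Phi9 g (ι z))
  have hcomp := (hp.comp z (hP.comp z hι)).fderiv
  have l2 : fderiv ℝ (fun z' => dmob g z' (KA (gᴴ * A * g) z')) z w
      = dmob g z (fderiv ℝ (KA (gᴴ * A * g)) z w) + ddmob g z (KA (gᴴ * A * g) z) w := by
    have e3 : (fun z' => dmob g z' (KA (gᴴ * A * g) z')) = (⇑pr ∘ (Phi9 g ∘ ι)) := rfl
    rw [e3, hcomp]
    change pr (fderiv ℝ (Phi9 g) (ι z) (w, ((0 : ℂ), fderiv ℝ (KA (gᴴ * A * g)) z w))) = _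
    rw [fderiv_Phi9 (x := ι z) h]
    rfl
  rw [← l1, ← l2, e2]

end Pool.Agent.Helper46.M9
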