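import Pool.Agent.Helper46.M9.St.T2
import Pool.Agent.Helper46.M9.St.T4
import Pool.Agent.Helper46.M8.St.T6
import Pool.Agent.Helper46.M8.Ns

/-!
# M9, piece T6
-/

open Filter Metric Module Set
open scoped Topology ContDiff Matrix Matrix.Norms.Elementwise ComplexConjugate Manifold

set_option maxSynthPendingDepth 3

namespace Pool.Agent.Helper46.M9
open Pool.Agent.Helper20.PC Pool.Agent.Helper20.HP Pool.Agent.Helper20.M8 Pool.Agent.Helper20.MB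
open Pool.Agent.Helper46.M8 Pool.Agent.Helper81.M9

/-- moving a point of `M⁹` to the fibre over `0`. -/
theorem exists_U9 {Q : Mat} (hQ : Q ∈ M9) :
    ∃ (U : Mat) (y : Y9), Uᴴ * U = 1 ∧ kL9 0 y y = 1 ∧ Q = U * Th9 (0, y) * Uᴴ := by
  obtain ⟨h1, h2⟩ := hQ
  have hBB : (Qᴴ * Q) * (Qᴴ * Q) = Qᴴ * Q := by
    calc (Qᴴ * Q) * (Qᴴ * Q) = Qᴴ * (Q * Qᴴ * Q) := by simp only [Matrix.mul_assoc]
      _ = Qᴴ * Q := by rw [h1]
  have hBH : (Qᴴ * Q)ᴴ = Qᴴ * Q := by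
    rw [Matrix.conjTranspose_mul, Matrix.conjTranspose_conjTranspose]
  obtain ⟨b, hb, hBb⟩ := T6.exists_fix hBB hBH h2
  obtain ⟨U, hU, hU0⟩ := T6.exists_unitary hb
  have hU' : U * Uᴴ = 1 := mul_eq_one_comm.1 hU
  set P : Mat := Uᴴ * Q * U with hP
  have hPm : P ∈ M9 := by
    have := M9_conj (g := Uᴴ) (Q := Q) (by rw [Matrix.conjTranspose_conjTranspose]; exact hU')
      ⟨h1, h2⟩
    rwa [Matrix.conjTranspose_conjTranspose] at this
  have hPP : Pᴴ * P = Uᴴ * (Qᴴ * Q) * U := by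
    rw [hP]
    simp only [Matrix.conjTranspose_mul, Matrix.conjTranspose_conjTranspose]
    calc Uᴴ * (Qᴴ * U) * (Uᴴ * Q * U) = Uᴴ * Qᴴ * (U * Uᴴ) * Q * U := by
          simp only [Matrix.mul_assoc]
      _ = Uᴴ * (Qᴴ * Q) * U := by
          rw [hU', Matrix.mul_one]
          simp only [Matrix.mul_assoc]
  have hcol : ∀ i, (Pᴴ * P) i 0 = (1 : Mat) i 0 := by
    intro i
    rw [hPP, Matrix.mul_assoc, ← hU, Matrix.mul_apply, Matrix.mul_apply]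
    refine Finset.sum_congr rfl fun k _ => ?_
    congr 1
    rw [Matrix.mul_apply, hU0 k]
    have := congrFun hBb k
    simp only [Matrix.mulVec, dotProduct] at this
    rw [← this]
    exact Finset.sum_congr rfl fun l _ => by rw [hU0 l]
  have h00 : (Pᴴ * P) 0 0 ≠ 0 := by
    rw [hcol 0]
    simp
  obtain ⟨hy, hf, hT⟩ := Th9_Xi9 hPm h00
  have hz : zX P = 0 := by
    funext i
    rw [zX, hcol i.succ]
    simp
  have hXi : Xi9 P = (0, (Xi9 P).2) := by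
    rw [← hz]
    rfl
  refine ⟨U, (Xi9 P).2, hU, ?_, ?_⟩
  · rw [hXi, fn9_eq] at hf
    exact hf
  · rw [← hXi, hT, hP]
    calc Q = (U * Uᴴ) * Q * (U * Uᴴ) := by rw [hU', Matrix.one_mul, Matrix.mul_one]
      _ = U * (Uᴴ * Q * U) * Uᴴ := by simp only [Matrix.mul_assoc]

/-- a linear parametrisation of the slice. -/
theorem exists_jt9 (l : Y9 →L[ℝ] ℝ) (hl : l ≠ 0) :
    ∃ (j : E9 →L[ℝ] V × Y9) (t : V × Y9 →L[ℝ] E9),
    (∀ e, t (j e) = e) ∧ (∀ x, l x.2 = 0 → j (t x) = x) ∧ ∀ e, l (j e).2 = 0 := by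
  obtain ⟨y0, hy0⟩ : ∃ y, l y ≠ 0 := by
    by_contra hcon
    push Not at hcon
    exact hl (ContinuousLinearMap.ext hcon)
  set L : V × Y9 →L[ℝ] ℝ := l ∘L ContinuousLinearMap.snd ℝ V Y9 with hL
  have hLx : ∀ x, L x = l x.2 := fun x => rfl
  set x0 : V × Y9 := (0, (l y0)⁻¹ • y0) with hx0
  have hLx0 : L x0 = 1 := by
    rw [hLx, hx0]
    simp only [map_smul, smul_eq_mul]
    exact inv_mul_cancel₀ hy0
  have hsurj : LinearMap.range (L : V × Y9 →ₗ[ℝ] ℝ) = ⊤ := by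
    rw [LinearMap.range_eq_top]
    intro r
    refine ⟨r • x0, ?_⟩
    change L (r • x0) = r
    rw [map_smul, hLx0, smul_eq_mul, mul_one]
  have hV : finrank ℝ V = 4 := by
    rw [Module.finrank_pi_fintype]
    simp [Complex.finrank_real_complex]
  have hfr : finrank ℝ (LinearMap.ker (L : V × Y9 →ₗ[ℝ] ℝ)) = finrank ℝ E9 := by
    have h1 := LinearMap.finrank_range_add_finrank_ker (L : V × Y9 →ₗ[ℝ] ℝ)
    rw [hsurj, finrank_top, Module.finrank_prod, Module.finrank_prod, hV,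
      Complex.finrank_real_complex] at h1
    simp only [Module.finrank_self] at h1
    have h2 : finrank ℝ E9 = 9 := by simp
    omega
  let e : LinearMap.ker (L : V × Y9 →ₗ[ℝ] ℝ) ≃L[ℝ] E9 := ContinuousLinearEquiv.ofFinrankEq hfr
  let pr : V × Y9 →L[ℝ] LinearMap.ker (L : V × Y9 →ₗ[ℝ] ℝ) :=
    (ContinuousLinearMap.id ℝ (V × Y9) - L.smulRight x0).codRestrict _ (by
      intro x
      rw [LinearMap.mem_ker]
      change L (x - L x • x0) = 0
      rw [map_sub, map_smul, hLx0, smul_eq_mul, mul_one, sub_self])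
  have hpr : ∀ x, ((pr x : LinearMap.ker (L : V × Y9 →ₗ[ℝ] ℝ)) : V × Y9) = x - L x • x0 := fun x => rfl
  refine ⟨(Submodule.subtypeL (LinearMap.ker (L : V × Y9 →ₗ[ℝ] ℝ))) ∘L
      (e.symm : E9 →L[ℝ] LinearMap.ker (L : V × Y9 →ₗ[ℝ] ℝ)),
    (e : LinearMap.ker (L : V × Y9 →ₗ[ℝ] ℝ) →L[ℝ] E9) ∘L pr, ?_, ?_, ?_⟩
  · intro v
    change e (pr ((e.symm v : LinearMap.ker (L : V × Y9 →ₗ[ℝ] ℝ)) : V × Y9)) = v
    have : pr ((e.symm v : LinearMap.ker (L : V × Y9 →ₗ[ℝ] ℝ)) : V × Y9) = e.symm v := by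
      apply Subtype.ext
      rw [hpr]
      have h0 : L ((e.symm v : LinearMap.ker (L : V × Y9 →ₗ[ℝ] ℝ)) : V × Y9) = 0 :=
        LinearMap.mem_ker.1 (e.symm v).2
      rw [h0, zero_smul, sub_zero]
    rw [this, ContinuousLinearEquiv.apply_symm_apply]
  · intro x hx
    change ((e.symm (e (pr x)) : LinearMap.ker (L : V × Y9 →ₗ[ℝ] ℝ)) : V × Y9) = x
    rw [ContinuousLinearEquiv.symm_apply_apply, hpr, hLx, hx, zero_smul, sub_zero]
  · intro v
    exact LinearMap.mem_ker.1 (e.symm v).2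

theorem exists_CD9 {Q : Mat} (hQ : Q ∈ M9) : Nonempty (CD9 Q) := by
  obtain ⟨U, y, hU, hy, hQ'⟩ := exists_U9 hQ
  have hl : kL9 0 y ≠ 0 := by
    intro h
    rw [h] at hy
    simp at hy
  obtain ⟨j, t, h1, h2, h3⟩ := exists_jt9 _ hl
  exact ⟨⟨U, hU, y, hy, hQ', j, t, h1, h2, h3⟩⟩

end Pool.Agent.Helper46.M9
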