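import Pool.Agent.Helper46.M9.St.T5
import Pool.Agent.Helper46.M9.St.T6
import Pool.Agent.Helper46.M8.St.Q1
import Pool.Agent.Helper46.M8.Ns

/-!
# M9, piece Q1
-/

open Filter Metric Module Set
open scoped Topology ContDiff Matrix Matrix.Norms.Elementwise ComplexConjugate Manifold

set_option maxSynthPendingDepth 3

namespace Pool.Agent.Helper46.M9
open Pool.Agent.Helper20.PC Pool.Agent.Helper20.HP Pool.Agent.Helper20.M8 Pool.Agent.Helper20.MB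
open Pool.Agent.Helper46.M8 Pool.Agent.Helper46.M8.Q1aux Pool.Agent.Helper81.M9

/-! ### Q1 : the maps `ph9`, `ps9` -/
variable {U : Mat}

lemma conj_mem9 (hU : Uᴴ * U = 1) {Q : Mat} (hQ : Q ∈ M9) : Uᴴ * Q * U ∈ M9 := by
  have h := M9_conj (g := Uᴴ) (Q := Q) (by rw [Matrix.conjTranspose_conjTranspose]; exact UUh hU) hQ
  rwa [Matrix.conjTranspose_conjTranspose] at h

lemma kL9_pos (z : V) {y : Y9} (hy : y ≠ 0) : 0 < kL9 z y y := by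
  have h := fn9_pos (x := (z, y)) hy
  rwa [fn9_eq] at h

theorem contDiffAt_ph9 (U : Mat) {x : V × Y9} (hx : x.2 ≠ 0) : ContDiffAt ℝ ∞ (ph9 U) x :=
  (cj U Uᴴ).contDiff.contDiffAt.comp x (contDiffAt_Th9 hx)

theorem ph9_mem (hU : Uᴴ * U = 1) {x : V × Y9} (hx : x.2 ≠ 0) : ph9 U x ∈ M9 :=
  M9_conj hU (Th9_mem hx)

theorem contDiffAt_ps9 {Q : Mat}
    (h : ((Uᴴ * Q * U)ᴴ * (Uᴴ * Q * U)) 0 0 ≠ 0) : ContDiffAt ℝ ∞ (ps9 U) Q := by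
  have h1 : ContDiffAt ℝ ∞ (cj Uᴴ U) Q := (cj Uᴴ U).contDiff.contDiffAt
  have h2 : ContDiffAt ℝ ∞ Xi9 (cj Uᴴ U Q) := contDiffAt_Xi9 h
  exact h2.comp _ h1

/-- `ps9` is a section of `ph9`. -/
theorem ph9_ps9 (hU : Uᴴ * U = 1) {Q : Mat} (hQ : Q ∈ M9)
    (h : ((Uᴴ * Q * U)ᴴ * (Uᴴ * Q * U)) 0 0 ≠ 0) :
    ph9 U (ps9 U Q) = Q ∧ kL9 (ps9 U Q).1 (ps9 U Q).2 (ps9 U Q).2 = 1 := by
  obtain ⟨h1, h2, h3⟩ := Th9_Xi9 (conj_mem9 hU hQ) h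
  constructor
  · rw [ph9, ps9, h3]
    have h5 : U * (Uᴴ * Q * U) * Uᴴ = (U * Uᴴ) * Q * (U * Uᴴ) := by
      simp only [Matrix.mul_assoc]
    rw [h5, UUh hU, Matrix.one_mul, Matrix.mul_one]
  · rw [← fn9_eq]
    exact h2

theorem ph9_smul (U : Mat) {z : V} {y : Y9} {t : ℝ} (ht : 0 < t) :
    ph9 U (z, t • y) = ph9 U (z, y) := by
  unfold ph9
  rw [Th9_smul ht]

/-- existence of adapted unitary matrices. -/
theorem exists_jj9 {Q : Mat} (hQ : Q ∈ M9) : ∃ U : Mat, Uᴴ * U = 1 ∧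
    ((Uᴴ * Q * U)ᴴ * (Uᴴ * Q * U)) 0 0 ≠ 0 ∧ zX (Uᴴ * Q * U) = 0 := by
  obtain ⟨U, y, hU, hy, hQe⟩ := exists_U9 hQ
  have h1 : Uᴴ * Q * U = Th9 ((0 : V), y) := by
    rw [hQe]
    have h5 : Uᴴ * (U * Th9 ((0 : V), y) * Uᴴ) * U
        = (Uᴴ * U) * Th9 ((0 : V), y) * (Uᴴ * U) := by
      simp only [Matrix.mul_assoc]
    rw [h5, hU, Matrix.one_mul, Matrix.mul_one]
  have hx : (((0 : V), y) : V × Y9).2 ≠ 0 := by
    intro h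
    have h' : y = 0 := h
    rw [h'] at hy
    simp at hy
  refine ⟨U, hU, ?_, ?_⟩
  · rw [h1, Th9_gram hx, Matrix.smul_apply, Matrix.vecMulVec_apply]
    simp [nz, Zv]
  · rw [h1]
    have h2 := congrArg Prod.fst (Xi9_Th9 hx)
    exact h2

end Pool.Agent.Helper46.M9
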