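import Pool.Agent.Helper20.MB.SphM
import Pool.Agent.Helper46.M8.St.N1
import Pool.Agent.Helper46.M9.St.Q1
import Pool.Agent.Helper46.M8.Ns

/-!
# M9: invariant families of data, invariance of the metric
-/

open Filter Metric Module Set
open scoped Topology ContDiff Matrix Matrix.Norms.Elementwise ComplexConjugate Manifold

set_option maxSynthPendingDepth 3

namespace Pool.Agent.Helper46.M9
open Pool.Agent.Helper20.PC Pool.Agent.Helper20.HP Pool.Agent.Helper20.M8 Pool.Agent.Helper20.MB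
open Pool.Agent.Helper46.M8 Pool.Agent.Helper81.M9

/-- a family of data on `ℂ ⊕ T` indexed by the unitary matrices, invariant under projective
transformations. -/
structure Inv9 (D : Mat → BD V Y9) : Prop where
  k : ∀ U, (D U).k = kL9
  good : ∀ U : Mat, Uᴴ * U = 1 → ∀ z, (D U).Good z
  h_mob : ∀ (U g : Mat) (z : V), Uᴴ * U = 1 → gᴴ * g = 1 → (g *ᵥ Zv z) 0 ≠ 0 → ∀ u v,
    (D (U * gᴴ)).h (mob g z) (dmob g z u) (dmob g z v) = (D U).h z u v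
  A_mob : ∀ (U g : Mat) (z : V), Uᴴ * U = 1 → gᴴ * g = 1 → (g *ᵥ Zv z) 0 ≠ 0 →
    ∀ (ζ : V) (y : Y9), (D (U * gᴴ)).A (mob g z) (dmob g z ζ) (y.1, dmob g z y.2)
      = (((D U).A z ζ y).1, dmob g z ((D U).A z ζ y).2 - ddmob g z y.2 ζ)
  S_mob : ∀ (U g : Mat) (z : V), Uᴴ * U = 1 → gᴴ * g = 1 → (g *ᵥ Zv z) 0 ≠ 0 →
    ∀ a b c d : Y9, (D (U * gᴴ)).S (mob g z) (a.1, dmob g z a.2)
      (b.1, dmob g z b.2) (c.1, dmob g z c.2) (d.1, dmob g z d.2)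
        = (D U).S z a b c d

theorem kL9_mob {g : Mat} {z : V} (hg : gᴴ * g = 1)
    (h : (g *ᵥ Zv z) 0 ≠ 0) (y p : Y9) :
    kL9 (mob g z) (y.1, dmob g z y.2) (p.1, dmob g z p.2) = kL9 z y p := by
  rw [kL9_apply, kL9_apply]
  simp only [h0_mob hg h]

variable {D : Mat → BD V Y9}

private lemma N8_Lam (I : Inv9 D) {U g : Mat} {x : V × Y9} (hU : Uᴴ * U = 1)
    (hg : gᴴ * g = 1) (h : (g *ᵥ Zv x.1) 0 ≠ 0) (u : V × Y9) :
    (dPhi9 g x u).2 + (D (U * gᴴ)).A (Phi9 g x).1 (dPhi9 g x u).1 (Phi9 g x).2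
      = ((u.2 + (D U).A x.1 u.1 x.2).1, dmob g x.1 (u.2 + (D U).A x.1 u.1 x.2).2) := by
  have e1 : (D (U * gᴴ)).A (Phi9 g x).1 (dPhi9 g x u).1 (Phi9 g x).2
      = (D (U * gᴴ)).A (mob g x.1) (dmob g x.1 u.1) (x.2.1, dmob g x.1 x.2.2) := rfl
  rw [e1, I.A_mob U g x.1 hU hg h]
  have e2 : ∀ a b : V, dmob g x.1 (a + b) = dmob g x.1 a + dmob g x.1 b := by
    intro a b
    rw [← fderiv_mob h, ← fderiv_mob h, ← fderiv_mob h, map_add]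
  refine Prod.ext rfl ?_
  simp only [dPhi9, Prod.snd_add, e2]
  abel

theorem R_mob9 (I : Inv9 D) {U g : Mat} {x : V × Y9} (hU : Uᴴ * U = 1)
    (hg : gᴴ * g = 1) (h : (g *ᵥ Zv x.1) 0 ≠ 0) (hx : x.2 ≠ 0) (η : ℝ) (u v : V × Y9) :
    (D (U * gᴴ)).R η (Phi9 g x) (dPhi9 g x u) (dPhi9 g x v) = (D U).R η x u v := by
  have hk : kL9 x.1 x.2 x.2 ≠ 0 := (kL9_pos x.1 hx).ne'
  have hk1 : (D U).k x.1 x.2 x.2 ≠ 0 := by rw [I.k]; exact hk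
  have hk' : kL9 (Phi9 g x).1 (Phi9 g x).2 (Phi9 g x).2 = kL9 x.1 x.2 x.2 := kL9_mob hg h x.2 x.2
  have hk2 : (D (U * gᴴ)).k (Phi9 g x).1 (Phi9 g x).2 (Phi9 g x).2 ≠ 0 := by
    rw [I.k, hk']
    exact hk
  rw [BD.R_apply _ _ _ _ _ hk1, BD.R_apply _ _ _ _ _ hk2, I.k, I.k,
    N8_Lam I hU hg h u, N8_Lam I hU hg h v]
  change (D (U * gᴴ)).h (mob g x.1) (dmob g x.1 u.1) (dmob g x.1 v.1) + _ - _ = _
  simp only [Phi9]
  rw [I.h_mob U g x.1 hU hg h, kL9_mob hg h, kL9_mob hg h, kL9_mob hg h, kL9_mob hg h,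
    I.S_mob U g x.1 hU hg h]

end Pool.Agent.Helper46.M9
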