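import Pool.Agent.Helper81.M9.Frame
import Pool.Agent.Helper46.M8.St.A6
import Pool.Agent.Helper46.M8.St.N5
import Pool.Agent.Helper46.M9.St.N7
import Pool.Agent.Helper46.M9.St.N8
import Pool.Agent.Helper46.M8.Ns

/-!
# M9: invariance of the data under projective transformations
-/

open Filter Metric Module Set
open scoped Topology ContDiff Matrix Matrix.Norms.Elementwise ComplexConjugate Manifold

set_option maxSynthPendingDepth 3

namespace Pool.Agent.Helper46.M9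
open Pool.Agent.Helper20.PC Pool.Agent.Helper20.HP Pool.Agent.Helper20.M8 Pool.Agent.Helper20.MB
open Pool.Agent.Helper46.M8 Pool.Agent.Helper81.M9

variable {U g : Mat} {δ : ℝ} {z : V}

theorem hatL_mob (hU : Uᴴ * U = 1) (hδ : |δ| ≤ 1/100) (hg : gᴴ * g = 1)
    (h : (g *ᵥ Zv z) 0 ≠ 0) (u : V) :
    hatL (U * gᴴ) δ (mob g z) (dmob g z u) = dmob g z (hatL U δ z u) := by
  unfold hatL
  rw [ContinuousLinearMap.comp_apply, ContinuousLinearMap.comp_apply,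
    CC_mob hU (δ := 0) (by norm_num) hg h, ← N5_hm hU hδ hg h]

theorem Gam0_mob (hg : gᴴ * g = 1) (h : (g *ᵥ Zv z) 0 ≠ 0) (u v : V) :
    Gam h0 (mob g z) (dmob g z u) (dmob g z v)
      = dmob g z (Gam h0 z u v) - ddmob g z u v := by
  have hc : Continuous fun w : V => (g *ᵥ Zv w) 0 := by
    have e : (fun w : V => (g *ᵥ Zv w) 0) = fun w : V => g 0 0 + g 0 1 * w 0 + g 0 2 * w 1 := by
      funext w
      simp [Matrix.mulVec, dotProduct, Fin.sum_univ_three, Zv]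
    rw [e]
    fun_prop
  have hev : ∀ᶠ w in 𝓝 z, (g *ᵥ Zv w) 0 ≠ 0 := hc.continuousAt.eventually_ne h
  have hs : Function.Surjective (fderiv ℝ (mob g) z) := by
    intro w
    refine ⟨dmob gᴴ (mob g z) w, ?_⟩
    rw [fderiv_mob h]
    exact (dmob_inv hg h w).2
  have key := Gam_pullback (G := h0) (G' := h0) (φ := mob g) (z := z)
    ((contDiffAt_mob h).of_le (by exact WithTop.coe_le_coe.2 le_top)) (h0_metAt _)
    (h0_metAt z) hs
    (by
      filter_upwards [hev] with w hw a b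
      rw [fderiv_mob hw, fderiv_mob hw, h0_mob hg hw]) u v
  rw [fderiv_mob h, fderiv_mob h, fderiv_mob h, fderiv2_mob h] at key
  rw [key]
  abel

theorem GamL0_mob (hg : gᴴ * g = 1) (h : (g *ᵥ Zv z) 0 ≠ 0) (u v : V) :
    GamL h0 (mob g z) (dmob g z u) (dmob g z v)
      = dmob g z (GamL h0 z u v) - ddmob g z u v := by
  rw [GamL_eq (h0_metAt _).smooth, GamL_eq (h0_metAt _).smooth]
  exact Gam0_mob hg h u v

theorem dmob_add9 (g : Mat) (z u v : V) : dmob g z (u + v) = dmob g z u + dmob g z v := by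
  have h1 : ∀ i, (g *ᵥ Wv (u + v)) i = (g *ᵥ Wv u) i + (g *ᵥ Wv v) i := by
    intro i
    rw [N1_Wv, N1_Wv, N1_Wv, map_add]
  funext i
  simp only [dmob, h1, Pi.add_apply]
  ring

theorem ddmob_comm9 (g : Mat) (z u v : V) : ddmob g z u v = ddmob g z v u := by
  funext i
  simp only [ddmob]
  ring

theorem DK_mob (hg : gᴴ * g = 1) (h : (g *ᵥ Zv z) 0 ≠ 0) (i : Fin 8) (y : V) :
    DK (U * gᴴ) i (mob g z) (dmob g z y) = dmob g z (DK U i z y) + ddmob g z (Kf U i z) y := by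
  have e1 : gᴴ * ((U * gᴴ)ᴴ * Bs i * (U * gᴴ)) * g = Uᴴ * Bs i * U := by
    rw [Matrix.conjTranspose_mul, Matrix.conjTranspose_conjTranspose]
    calc gᴴ * (g * Uᴴ * Bs i * (U * gᴴ)) * g = (gᴴ * g) * (Uᴴ * Bs i * U) * (gᴴ * g) := by
          simp only [Matrix.mul_assoc]
      _ = Uᴴ * Bs i * U := by rw [hg, Matrix.one_mul, Matrix.mul_one]
  have key := fderiv_KA_mob ((U * gᴴ)ᴴ * Bs i * (U * gᴴ)) hg h y
  rw [e1] at key
  exact key

theorem MK_mob (hg : gᴴ * g = 1) (h : (g *ᵥ Zv z) 0 ≠ 0) (i : Fin 8) (y : V) :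
    MK (U * gᴴ) i (mob g z) (dmob g z y) = dmob g z (MK U i z y) := by
  rw [MK_apply, MK_apply, DK_mob hg h, N5_Kf_mob hg h, GamL0_mob hg h, dmob_add9,
    ddmob_comm9 g z y]
  abel

theorem BL_mob (hU : Uᴴ * U = 1) (hδ : |δ| ≤ 1/100) (hg : gᴴ * g = 1)
    (h : (g *ᵥ Zv z) 0 ≠ 0) (ε : ℝ) (ζ y : V) :
    BL (U * gᴴ) δ ε (mob g z) (dmob g z ζ) (dmob g z y) = dmob g z (BL U δ ε z ζ y) := by
  rw [BL_apply, BL_apply]
  simp only [momL_mob hU hδ hg h, MK_mob hg h, ← dmob_iL]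
  simp only [← fderiv_mob h, map_sub, map_smul, map_sum]

theorem LamL_mob (hg : gᴴ * g = 1) (h : (g *ᵥ Zv z) 0 ≠ 0) (v : V) (y : Y9) :
    LamL (mob g z) (dmob g z v) (y.1, dmob g z y.2)
      = ((LamL z v y).1, dmob g z (LamL z v y).2) := by
  rw [LamL_apply, LamL_apply]
  simp only [h0_mob hg h, ← dmob_iL]
  simp only [← fderiv_mob h, map_add, map_smul]

theorem AL9_mob (hU : Uᴴ * U = 1) (hδ : |δ| ≤ 1/100) (hg : gᴴ * g = 1)
    (h : (g *ᵥ Zv z) 0 ≠ 0) (ε : ℝ) (ζ : V) (y : Y9) :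
    AL9 (U * gᴴ) δ ε (mob g z) (dmob g z ζ) (y.1, dmob g z y.2)
      = ((AL9 U δ ε z ζ y).1, dmob g z (AL9 U δ ε z ζ y).2 - ddmob g z y.2 ζ) := by
  rw [AL9_apply, AL9_apply, hatL_mob hU hδ hg h, LamL_mob hg h]
  simp only [GamL0_mob hg h, BL_mob hU hδ hg h]
  refine Prod.ext (by simp) ?_
  simp only [Prod.snd_add, dmob_add9, ddmob_comm9 g z ζ]
  abel

theorem mu0_mob (hg : gᴴ * g = 1) (h : (g *ᵥ Zv z) 0 ≠ 0) (i : Fin 8) (u : V) :
    mu0 (U * gᴴ) (mob g z) i (dmob g z u) = mu0 U z i u := by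
  rw [mu0, mu0, N5_Kf_mob hg h, h0_mob hg h]

theorem FF_mob (hg : gᴴ * g = 1) (h : (g *ᵥ Zv z) 0 ≠ 0) (u v : V) :
    FF (U * gᴴ) (mob g z) (dmob g z u) (dmob g z v) = FF U z u v := by
  simp only [FF_apply, mu0_mob hg h]

theorem be_mob (h : (g *ᵥ Zv z) 0 ≠ 0) (y p : Y9) :
    be (y.1, dmob g z y.2) (p.1, dmob g z p.2) = dmob g z (be y p) := by
  simp only [be]
  simp only [← fderiv_mob h, map_sub, map_smul]

theorem nf_mob (h : (g *ᵥ Zv z) 0 ≠ 0) (y p : Y9) :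
    nf (y.1, dmob g z y.2) (p.1, dmob g z p.2) = dmob g z (nf y p) := by
  simp only [nf]
  have e : ∀ u, dmob g z (-iL u) = - iL (dmob g z u) := by
    intro u
    rw [← dmob_iL, ← fderiv_mob h, ← fderiv_mob h, map_neg]
  rw [e]
  simp only [← fderiv_mob h, map_sub, map_smul]

theorem qq_mob (h : (g *ᵥ Zv z) 0 ≠ 0) (y p : Y9) :
    qq (y.1, dmob g z y.2) (p.1, dmob g z p.2) = dmob g z (qq y p) := by
  simp only [qq, be_mob h, nf_mob h]
  simp only [← fderiv_mob h, map_add, map_smul]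

theorem S9_mob (hU : Uᴴ * U = 1) (hδ : |δ| ≤ 1/100) (hg : gᴴ * g = 1)
    (h : (g *ᵥ Zv z) 0 ≠ 0) (ε lam : ℝ) (a b c d : Y9) :
    S9 (U * gᴴ) δ ε lam (mob g z) (a.1, dmob g z a.2) (b.1, dmob g z b.2)
      (c.1, dmob g z c.2) (d.1, dmob g z d.2) = S9 U δ ε lam z a b c d := by
  rw [S9, S9]
  simp only [be_mob h, nf_mob h, qq_mob h, hm_mob hU hδ hg h, BL_mob hU hδ hg h, h0_mob hg h,
    omL_mob hg h, mu0_mob hg h, FF_mob hg h]
  rfl

/-- the data is an invariant family. -/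
theorem inv9_of_good {δ ε lam : ℝ} (hδ : |δ| ≤ 1/100)
    (G : ∀ U : Mat, Uᴴ * U = 1 → ∀ z, (D9 U δ ε lam).Good z) :
    Inv9 (fun U => D9 U δ ε lam) where
  k _ := rfl
  good := G
  h_mob _ _ _ hU hg h u v := hm_mob hU hδ hg h u v
  A_mob _ _ _ hU hg h ζ y := AL9_mob hU hδ hg h ε ζ y
  S_mob _ _ _ hU hg h a b c d := S9_mob hU hδ hg h ε lam a b c d

end Pool.Agent.Helper46.M9
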