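import Pool.Agent.Helper46.M9.Def
import Pool.Agent.Helper46.M9.Man
import Pool.Agent.Helper46.M8.St.T1
import Pool.Agent.Helper46.M8.Ns

/-!
# M9, piece T1
-/

open Filter Metric Module Set
open scoped Topology ContDiff Matrix Matrix.Norms.Elementwise ComplexConjugate Manifold

set_option maxSynthPendingDepth 3

namespace Pool.Agent.Helper46.M9
open Pool.Agent.Helper20.PC Pool.Agent.Helper20.HP Pool.Agent.Helper20.M8 Pool.Agent.Helper20.MB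
open Pool.Agent.Helper46.M8 Pool.Agent.Helper46.M8.T1aux Pool.Agent.Helper81.M9

namespace T1

noncomputable def bv9 (x : V × Y9) : Fin 3 → ℂ :=
  (((Real.sqrt (fn9 x))⁻¹ : ℝ) : ℂ) •
    ((x.2.1 / (nz x.1 : ℂ)) • Zv x.1
      + ((nz x.1 : ℂ) ^ 2)⁻¹ • ((nz x.1 : ℂ) • Wv x.2.2 - hip x.1 x.2.2 • Zv x.1))

lemma Th9_eq (x : V × Y9) : Th9 x = Matrix.vecMulVec (bv9 x) (star (Zv x.1)) := by
  rw [Th9, bv9, Matrix.smul_vecMulVec, Matrix.add_vecMulVec, Matrix.smul_vecMulVec,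
    Matrix.smul_vecMulVec]

lemma fn9_pos {x : V × Y9} (hx : x.2 ≠ 0) : 0 < fn9 x := by
  rw [fn9]
  have h1 := sq_nonneg x.2.1.re
  have h2 := sq_nonneg x.2.1.im
  by_cases h : x.2.2 = 0
  · have h3 : x.2.1.re ≠ 0 ∨ x.2.1.im ≠ 0 := by
      by_contra hc
      push Not at hc
      exact hx (Prod.ext (Complex.ext hc.1 hc.2) h)
    rw [h]
    simp only [map_zero, add_zero]
    rcases h3 with h3 | h3
    · have : 0 < x.2.1.re ^ 2 := by positivity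
      linarith
    · have : 0 < x.2.1.im ^ 2 := by positivity
      linarith
  · have := h0_pos x.1 x.2.2 h
    linarith

lemma zb9 (x : V × Y9) : star (Zv x.1) ⬝ᵥ bv9 x = (((Real.sqrt (fn9 x))⁻¹ : ℝ) : ℂ) * x.2.1 := by
  have hn : (nz x.1 : ℂ) ≠ 0 := by exact_mod_cast (nz_pos x.1).ne'
  rw [bv9, dotProduct_smul, dotProduct_add, dotProduct_smul, dotProduct_smul, dotProduct_sub,
    dotProduct_smul, dotProduct_smul, zz, zw]
  simp only [smul_eq_mul]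
  push_cast
  field_simp
  ring

lemma cc_star (y : ℂ) : star y * y = ((y.re ^ 2 + y.im ^ 2 : ℝ) : ℂ) := by
  rw [RCLike.star_def, ← Complex.normSq_eq_conj_mul_self, Complex.normSq_apply]
  push_cast
  ring

lemma fn9_cast (x : V × Y9) : (fn9 x : ℂ) =
    star (x.2.1) * x.2.1 + ((nz x.1 : ℂ) * hip x.2.2 x.2.2
      - hip x.2.2 x.1 * hip x.1 x.2.2) / (nz x.1 : ℂ) ^ 2 := by
  have h1 : ((hip x.2.2 x.1 * hip x.1 x.2.2).re : ℂ) = hip x.2.2 x.1 * hip x.1 x.2.2 := by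
    apply Complex.conj_eq_iff_re.1
    rw [map_mul, ← RCLike.star_def, hip_conj, hip_conj]
    ring
  rw [cc_star, fn9, h0_apply, h0f]
  push_cast
  rw [h1, ← hip_self]

lemma bb9 {x : V × Y9} (hx : x.2 ≠ 0) : star (bv9 x) ⬝ᵥ bv9 x = (nz x.1 : ℂ)⁻¹ := by
  have hn : (nz x.1 : ℂ) ≠ 0 := by exact_mod_cast (nz_pos x.1).ne'
  have hf := fn9_pos hx
  have hs : (((Real.sqrt (fn9 x))⁻¹ : ℝ) : ℂ) * (((Real.sqrt (fn9 x))⁻¹ : ℝ) : ℂ)
      * (fn9 x : ℂ) = 1 := by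
    rw [← Complex.ofReal_mul, ← Complex.ofReal_mul, ← mul_inv, Real.mul_self_sqrt hf.le,
      inv_mul_cancel₀ hf.ne', Complex.ofReal_one]
  have e : bv9 x = (((Real.sqrt (fn9 x))⁻¹ : ℝ) : ℂ) •
      ((x.2.1 / (nz x.1 : ℂ) - hip x.1 x.2.2 / (nz x.1 : ℂ) ^ 2) • Zv x.1
        + (1 / (nz x.1 : ℂ)) • Wv x.2.2) := by
    rw [bv9]
    congr 1
    rw [smul_sub, smul_smul, smul_smul, sub_smul]
    have e1 : ((nz x.1 : ℂ) ^ 2)⁻¹ * (nz x.1 : ℂ) = 1 / (nz x.1 : ℂ) := by field_simp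
    have e2 : ((nz x.1 : ℂ) ^ 2)⁻¹ * hip x.1 x.2.2 = hip x.1 x.2.2 / (nz x.1 : ℂ) ^ 2 := by
      field_simp
    rw [e1, e2]
    abel
  rw [e]
  simp only [star_smul, star_add, smul_dotProduct, dotProduct_smul, add_dotProduct,
    dotProduct_add, zz, zw, wz, ww, smul_eq_mul, star_sub, star_div₀, star_one, star_pow,
    hip_conj]
  have e3 : star ((nz x.1 : ℂ)) = (nz x.1 : ℂ) := by
    rw [RCLike.star_def, Complex.conj_ofReal]
  have e4 : star ((((Real.sqrt (fn9 x))⁻¹ : ℝ) : ℂ)) = (((Real.sqrt (fn9 x))⁻¹ : ℝ) : ℂ) := by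
    rw [RCLike.star_def, Complex.conj_ofReal]
  rw [e3, e4]
  have hfc := fn9_cast x
  have : (((Real.sqrt (fn9 x))⁻¹ : ℝ) : ℂ) * (((Real.sqrt (fn9 x))⁻¹ : ℝ) : ℂ) * (fn9 x : ℂ)
      / (nz x.1 : ℂ) = (nz x.1 : ℂ)⁻¹ := by
    rw [hs, one_div]
  rw [← this, hfc]
  field_simp
  ring

end T1

open T1

theorem fn9_pos {x : V × Y9} (hx : x.2 ≠ 0) : 0 < fn9 x := T1.fn9_pos hx

theorem Th9_gram {x : V × Y9} (hx : x.2 ≠ 0) :
    (Th9 x)ᴴ * Th9 x = ((nz x.1 : ℂ))⁻¹ • Matrix.vecMulVec (Zv x.1) (star (Zv x.1)) := by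
  rw [Th9_eq, Matrix.conjTranspose_vecMulVec, star_star, Matrix.vecMulVec_mul_vecMulVec,
    bb9 hx, ← Matrix.vecMulVec_smul]

theorem Th9_trace (x : V × Y9) :
    (Th9 x).trace = (((Real.sqrt (fn9 x))⁻¹ : ℝ) : ℂ) * x.2.1 := by
  rw [Th9_eq, Matrix.trace_vecMulVec, dotProduct_comm, zb9]

theorem Th9_mem {x : V × Y9} (hx : x.2 ≠ 0) : Th9 x ∈ M9 := by
  have hn : (nz x.1 : ℂ) ≠ 0 := by exact_mod_cast (nz_pos x.1).ne'
  refine ⟨?_, ?_⟩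
  · rw [Matrix.mul_assoc, Th9_gram hx, Matrix.mul_smul]
    rw [Th9_eq, Matrix.vecMulVec_mul_vecMulVec, zz, Matrix.vecMulVec_smul, smul_smul,
      inv_mul_cancel₀ hn, one_smul]
  · rw [Th9_gram hx, Matrix.trace_smul, Matrix.trace_vecMulVec, dotProduct_comm, zz, smul_eq_mul,
      inv_mul_cancel₀ hn]

end Pool.Agent.Helper46.M9
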