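import Pool.Agent.Helper46.M8.St.A4a
import Pool.Agent.Helper46.M9.St.T1
import Pool.Agent.Helper46.M8.Ns

/-!
# M9, piece T5
-/

open Filter Metric Module Set
open scoped Topology ContDiff Matrix Matrix.Norms.Elementwise ComplexConjugate Manifold

set_option maxSynthPendingDepth 3

namespace Pool.Agent.Helper46.M9
open Pool.Agent.Helper20.PC Pool.Agent.Helper20.HP Pool.Agent.Helper20.M8 Pool.Agent.Helper20.MB
open Pool.Agent.Helper46.M8 Pool.Agent.Helper81.M9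

private lemma u5_ent (i j : Fin 3) : ContDiff ℝ ∞ (fun A : Mat => A i j) :=
  contDiff_apply_apply ℝ ℂ i j

private lemma u5_mat {E : Type*} [NormedAddCommGroup E] [NormedSpace ℝ E] {f : E → Mat} {x : E}
    (h : ∀ i j, ContDiffAt ℝ ∞ (fun x => f x i j) x) : ContDiffAt ℝ ∞ f x :=
  contDiffAt_pi.2 fun i => contDiffAt_pi.2 fun j => h i j

private lemma u5_z (i : Fin 2) : ContDiff ℝ ∞ (fun x : V × Y9 => x.1 i) :=
  (contDiff_coord i).comp contDiff_fst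

private lemma u5_T : ContDiff ℝ ∞ (fun x : V × Y9 => x.2.2) :=
  contDiff_snd.comp contDiff_snd

private lemma u5_w (i : Fin 2) : ContDiff ℝ ∞ (fun x : V × Y9 => x.2.2 i) :=
  (contDiff_coord i).comp u5_T

private lemma u5_cc : ContDiff ℝ ∞ (fun x : V × Y9 => x.2.1) :=
  contDiff_fst.comp contDiff_snd

private lemma u5_s : ContDiff ℝ ∞ (fun x : V × Y9 => x.2.1.re) :=
  Complex.reCLM.contDiff.comp u5_cc

private lemma u5_t : ContDiff ℝ ∞ (fun x : V × Y9 => x.2.1.im) :=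
  Complex.imCLM.contDiff.comp u5_cc

private lemma u5_nz : ContDiff ℝ ∞ (fun x : V × Y9 => nz x.1) :=
  contDiff_nz.comp contDiff_fst

private lemma u5_nzC : ContDiff ℝ ∞ (fun x : V × Y9 => (nz x.1 : ℂ)) :=
  Complex.ofRealCLM.contDiff.comp u5_nz

private lemma u5_hip : ContDiff ℝ ∞ (fun x : V × Y9 => hip x.1 x.2.2) := by
  unfold hip
  exact ContDiff.sum fun i _ => (Complex.conjCLE.contDiff.comp (u5_z i)).mul (u5_w i)

private lemma u5_Zv (i : Fin 3) : ContDiff ℝ ∞ (fun x : V × Y9 => Zv x.1 i) := by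
  fin_cases i
  · exact contDiff_const
  · exact u5_z 0
  · exact u5_z 1

private lemma u5_Wv (i : Fin 3) : ContDiff ℝ ∞ (fun x : V × Y9 => Wv x.2.2 i) := by
  fin_cases i
  · exact contDiff_const
  · exact u5_w 0
  · exact u5_w 1

theorem contDiff_fn9 : ContDiff ℝ ∞ fn9 := by
  unfold fn9
  have h1 : ContDiff ℝ ∞ (fun x : V × Y9 => h0 x.1) := contDiff_h0.comp contDiff_fst
  exact ((u5_s.pow 2).add (u5_t.pow 2)).add ((h1.clm_apply u5_T).clm_apply u5_T)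

/-! ### T5 : smoothness of `Th9` and `Xi9` -/
theorem contDiffAt_Th9 {x : V × Y9} (hx : x.2 ≠ 0) : ContDiffAt ℝ ∞ Th9 x := by
  refine u5_mat fun i j => ?_
  have hf := fn9_pos hx
  have e : (fun x : V × Y9 => Th9 x i j) = fun x : V × Y9 =>
      (((Real.sqrt (fn9 x))⁻¹ : ℝ) : ℂ) *
        ((x.2.1 / (nz x.1 : ℂ)) * (Zv x.1 i * conj (Zv x.1 j)) +
          ((nz x.1 : ℂ) ^ 2)⁻¹ *
            (((nz x.1 : ℂ) * Wv x.2.2 i - hip x.1 x.2.2 * Zv x.1 i) * conj (Zv x.1 j))) := by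
    funext x
    simp [Th9, Matrix.vecMulVec_apply]
  rw [e]
  have hc : ContDiffAt ℝ ∞ (fun x : V × Y9 => conj (Zv x.1 j)) x :=
    (Complex.conjCLE.contDiff.comp (u5_Zv j)).contDiffAt
  have hn : nz x.1 ≠ 0 := (nz_pos x.1).ne'
  have hnC' : (nz x.1 : ℂ) ≠ 0 := by exact_mod_cast hn
  have hnC : ((nz x.1 : ℂ) ^ 2) ≠ 0 := pow_ne_zero 2 hnC'
  have h1 : ContDiffAt ℝ ∞ (fun x : V × Y9 => (((Real.sqrt (fn9 x))⁻¹ : ℝ) : ℂ)) x := by
    have : ContDiffAt ℝ ∞ (fun x : V × Y9 => (Real.sqrt (fn9 x))⁻¹) x :=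
      (contDiff_fn9.contDiffAt.sqrt hf.ne').inv (Real.sqrt_pos.2 hf).ne'
    exact Complex.ofRealCLM.contDiff.contDiffAt.comp x this
  have h2 : ContDiffAt ℝ ∞ (fun x : V × Y9 => x.2.1 / (nz x.1 : ℂ)) x := by
    have h4 := u5_cc.contDiffAt.mul ((u5_nzC.contDiffAt (x := x)).inv hnC')
    refine h4.congr_of_eventuallyEq (Eventually.of_forall fun x' => ?_)
    simp [div_eq_mul_inv]
  have h3 : ContDiffAt ℝ ∞ (fun x : V × Y9 => ((nz x.1 : ℂ) ^ 2)⁻¹) x :=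
    (u5_nzC.contDiffAt.pow 2).inv hnC
  exact h1.mul ((h2.mul ((u5_Zv i).contDiffAt.mul hc)).add
    (h3.mul (((u5_nzC.contDiffAt.mul (u5_Wv i).contDiffAt).sub
      (u5_hip.contDiffAt.mul (u5_Zv i).contDiffAt)).mul hc)))

private lemma u5_gram (i j : Fin 3) : ContDiff ℝ ∞ (fun Q : Mat => (Qᴴ * Q) i j) := by
  simp only [Matrix.mul_apply, Matrix.conjTranspose_apply]
  exact ContDiff.sum fun k _ => ((Complex.conjCLE.contDiff).comp (u5_ent k i)).mul (u5_ent k j)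

private lemma u5_zX {Q : Mat} (h : (Qᴴ * Q) 0 0 ≠ 0) (i : Fin 2) :
    ContDiffAt ℝ ∞ (fun Q : Mat => zX Q i) Q := by
  have h1 : ContDiffAt ℝ ∞ (fun Q : Mat => (Qᴴ * Q) i.succ 0) Q := (u5_gram i.succ 0).contDiffAt
  have h2 : ContDiffAt ℝ ∞ (fun Q : Mat => (Qᴴ * Q) 0 0) Q := (u5_gram 0 0).contDiffAt
  have h3 := h1.mul (h2.inv h)
  have e : (fun Q : Mat => zX Q i) =
      (fun Q : Mat => (Qᴴ * Q) i.succ 0 * (fun Q : Mat => (Qᴴ * Q) 0 0)⁻¹ Q) := by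
    funext P
    simp only [zX, div_eq_mul_inv, Pi.inv_apply]
  rw [e]
  exact h3

private lemma u5_tr : ContDiff ℝ ∞ (fun Q : Mat => Q.trace) := by
  simp only [Matrix.trace, Matrix.diag_apply]
  exact ContDiff.sum fun i _ => u5_ent i i

private lemma u5_ZX {Q : Mat} (h : (Qᴴ * Q) 0 0 ≠ 0) (i : Fin 3) :
    ContDiffAt ℝ ∞ (fun Q : Mat => Zv (zX Q) i) Q := by
  fin_cases i
  · exact contDiffAt_const
  · exact u5_zX h 0
  · exact u5_zX h 1

private lemma u5_W {Q : Mat} (h : (Qᴴ * Q) 0 0 ≠ 0) (i : Fin 3) :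
    ContDiffAt ℝ ∞ (fun Q : Mat => ((Q - Q.trace • (Qᴴ * Q)) *ᵥ Zv (zX Q)) i) Q := by
  simp only [Matrix.mulVec, dotProduct, Matrix.sub_apply, Matrix.smul_apply, smul_eq_mul]
  refine ContDiffAt.sum fun j _ => ContDiffAt.mul ?_ (u5_ZX h j)
  exact (u5_ent i j).contDiffAt.sub (ContDiffAt.mul u5_tr.contDiffAt (u5_gram i j).contDiffAt)

theorem contDiffAt_Xi9 {Q : Mat} (h : (Qᴴ * Q) 0 0 ≠ 0) : ContDiffAt ℝ ∞ Xi9 Q := by
  refine ContDiffAt.prodMk (contDiffAt_pi.2 fun i => u5_zX h i)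
    (ContDiffAt.prodMk u5_tr.contDiffAt ?_)
  refine contDiffAt_pi.2 fun i => ?_
  exact (u5_W h i.succ).sub ((u5_zX h i).mul (u5_W h 0))

end Pool.Agent.Helper46.M9
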