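import Pool.Agent.Helper46.M9.St.T2
import Pool.Agent.Helper46.M9.St.T4
import Pool.Agent.Helper46.M9.St.T5
import Pool.Agent.Helper46.M8.Ns

/-!
# M9, piece P1
-/

open Filter Metric Module Set
open scoped Topology ContDiff Matrix Matrix.Norms.Elementwise ComplexConjugate Manifold

set_option maxSynthPendingDepth 3

namespace Pool.Agent.Helper46.M9
open Pool.Agent.Helper20.PC Pool.Agent.Helper20.HP Pool.Agent.Helper20.M8 Pool.Agent.Helper20.MB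
open Pool.Agent.Helper46.M8 Pool.Agent.Helper81.M9

/-! ### P1 : the parametrisations -/
variable {Q : Mat}

private lemma P1_k9 (D : CD9 Q) (e : E9) : kL9 0 D.y (D.sg e).2 = 1 := by
  have h : (D.sg e).2 = D.y + (D.j e).2 := rfl
  rw [h, map_add, D.hy, D.lj, add_zero]

private lemma P1_conj (D : CD9 Q) (e : E9) : D.Uᴴ * D.psi e * D.U = Th9 (D.sg e) := by
  have h : D.psi e = D.U * Th9 (D.sg e) * D.Uᴴ := rfl
  rw [h]
  calc D.Uᴴ * (D.U * Th9 (D.sg e) * D.Uᴴ) * D.U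
      = (D.Uᴴ * D.U) * Th9 (D.sg e) * (D.Uᴴ * D.U) := by simp only [Matrix.mul_assoc]
    _ = Th9 (D.sg e) := by rw [D.hU, one_mul, mul_one]

private lemma P1_smooth (U : Mat) : ContDiff ℝ ∞ (fun M : Mat => U * M * Uᴴ) := by
  refine contDiff_pi.2 fun i => contDiff_pi.2 fun j => ?_
  simp only [Matrix.mul_apply]
  refine ContDiff.sum fun c _ => ContDiff.mul (ContDiff.sum fun e _ => ?_) contDiff_const
  exact contDiff_const.mul (contDiff_apply_apply ℝ ℂ e c)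

theorem CD9.sg_ne (D : CD9 Q) (e : E9) : (D.sg e).2 ≠ 0 := by
  intro h
  have h1 := P1_k9 D e
  rw [h, map_zero] at h1
  exact zero_ne_one h1

theorem CD9.smooth_psi (D : CD9 Q) : ContDiff ℝ ∞ D.psi := by
  have h1 : ContDiff ℝ ∞ D.sg := contDiff_const.add D.j.contDiff
  have h2 : ContDiff ℝ ∞ (fun e => Th9 (D.sg e)) := contDiff_iff_contDiffAt.2 fun e =>
    (contDiffAt_Th9 (D.sg_ne e)).comp e h1.contDiffAt
  exact (P1_smooth D.U).comp h2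

theorem CD9.psi_mem (D : CD9 Q) (e : E9) : D.psi e ∈ M9 :=
  M9_conj D.hU (Th9_mem (D.sg_ne e))

theorem CD9.psi_mem' (D : CD9 Q) (e : E9) : D.psi e ∈ D.O := by
  refine ⟨?_, ?_⟩
  · rw [P1_conj, Th9_gram (D.sg_ne e)]
    have h : (((nz (D.sg e).1 : ℂ))⁻¹ • Matrix.vecMulVec (Zv (D.sg e).1) (star (Zv (D.sg e).1)) :
        Mat) 0 0 = ((nz (D.sg e).1 : ℂ))⁻¹ := by
      rw [Matrix.smul_apply, Matrix.vecMulVec_apply, Pi.star_apply, smul_eq_mul]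
      have h0 : Zv (D.sg e).1 0 = 1 := rfl
      rw [h0, star_one, one_mul, mul_one]
    rw [h]
    exact inv_ne_zero (by exact_mod_cast (nz_pos _).ne')
  · rw [P1_conj, Xi9_Th9 (D.sg_ne e)]
    have h : kL9 0 D.y ((Real.sqrt (fn9 (D.sg e)))⁻¹ • (D.sg e).2)
        = (Real.sqrt (fn9 (D.sg e)))⁻¹ := by
      rw [map_smul, P1_k9, smul_eq_mul, mul_one]
    change 0 < kL9 0 D.y ((Real.sqrt (fn9 (D.sg e)))⁻¹ • (D.sg e).2)
    rw [h]
    exact inv_pos.2 (Real.sqrt_pos.2 (fn9_pos (D.sg_ne e)))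

theorem CD9.rho_psi (D : CD9 Q) (e : E9) : D.rho (D.psi e) = e := by
  have hr : (Real.sqrt (fn9 (D.sg e)))⁻¹ ≠ 0 :=
    (inv_pos.2 (Real.sqrt_pos.2 (fn9_pos (D.sg_ne e)))).ne'
  have h : kL9 0 D.y ((Real.sqrt (fn9 (D.sg e)))⁻¹ • (D.sg e).2)
      = (Real.sqrt (fn9 (D.sg e)))⁻¹ := by
    rw [map_smul, P1_k9, smul_eq_mul, mul_one]
  have h1 : D.sc (Xi9 (D.Uᴴ * D.psi e * D.U)) = D.sg e := by
    rw [P1_conj, Xi9_Th9 (D.sg_ne e)]
    unfold CD9.sc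
    refine Prod.ext rfl ?_
    change (kL9 0 D.y ((Real.sqrt (fn9 (D.sg e)))⁻¹ • (D.sg e).2))⁻¹ •
      ((Real.sqrt (fn9 (D.sg e)))⁻¹ • (D.sg e).2) = (D.sg e).2
    rw [h, smul_smul, inv_mul_cancel₀ hr, one_smul]
  unfold CD9.rho
  rw [h1]
  have h2 : D.sg e - (0, D.y) = D.j e := by
    unfold CD9.sg
    abel
  rw [h2, D.tj]

end Pool.Agent.Helper46.M9
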