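import Pool.Agent.Helper46.M9.St.T2
import Pool.Agent.Helper46.M9.St.T4
import Pool.Agent.Helper46.M9.St.T5
import Pool.Agent.Helper46.M8.Ns

/-!
# M9, piece P2
-/

open Filter Metric Module Set
open scoped Topology ContDiff Matrix Matrix.Norms.Elementwise ComplexConjugate Manifold

set_option maxSynthPendingDepth 3

namespace Pool.Agent.Helper46.M9
open Pool.Agent.Helper20.PC Pool.Agent.Helper20.HP Pool.Agent.Helper20.M8 Pool.Agent.Helper20.MB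
open Pool.Agent.Helper46.M8 Pool.Agent.Helper81.M9

/-! ### P2 : the charts -/
variable {Q : Mat}

namespace P2aux

lemma contDiff_entry (i j : Fin 3) : ContDiff ℝ ∞ (fun P : Mat => P i j) := by
  have h1 : ContDiff ℝ ∞ (fun P : Mat => P i) := contDiff_apply ℝ (Fin 3 → ℂ) i
  exact (contDiff_apply ℝ ℂ j).comp h1

lemma contDiff_conj (A B : Mat) : ContDiff ℝ ∞ (fun P : Mat => A * P * B) := by
  apply contDiff_pi'
  intro i
  apply contDiff_pi'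
  intro j
  simp only [Matrix.mul_apply]
  refine ContDiff.sum fun k _ => ContDiff.mul (ContDiff.sum fun l _ => ?_) contDiff_const
  exact ContDiff.mul contDiff_const (contDiff_entry l k)

lemma cont_gram : Continuous (fun P : Mat => (Pᴴ * P) 0 0) := by
  have h : Continuous (fun P : Mat => Pᴴ * P) :=
    (continuous_id.matrix_conjTranspose).matrix_mul continuous_id
  exact h.matrix_elem 0 0

lemma mul_conjTranspose {U : Mat} (hU : Uᴴ * U = 1) : U * Uᴴ = 1 := mul_eq_one_comm.1 hU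

lemma conj_conj {U : Mat} (hU : Uᴴ * U = 1) (T : Mat) : Uᴴ * (U * T * Uᴴ) * U = T := by
  have : Uᴴ * (U * T * Uᴴ) * U = (Uᴴ * U) * T * (Uᴴ * U) := by
    simp only [Matrix.mul_assoc]
  rw [this, hU, Matrix.one_mul, Matrix.mul_one]

lemma conj_conj' {U : Mat} (hU : Uᴴ * U = 1) (T : Mat) : U * (Uᴴ * T * U) * Uᴴ = T := by
  have h := mul_conjTranspose hU
  have : U * (Uᴴ * T * U) * Uᴴ = (U * Uᴴ) * T * (U * Uᴴ) := by
    simp only [Matrix.mul_assoc]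
  rw [this, h, Matrix.one_mul, Matrix.mul_one]

lemma y_ne (D : CD9 Q) : D.y ≠ 0 := by
  intro h
  have h1 := D.hy
  rw [h] at h1
  simp at h1

lemma mem_conj (D : CD9 Q) {P : Mat} (hP : P ∈ M9) : D.Uᴴ * P * D.U ∈ M9 := by
  have h : (D.Uᴴ)ᴴ * D.Uᴴ = 1 := by
    rw [Matrix.conjTranspose_conjTranspose]
    exact mul_conjTranspose D.hU
  have h1 := M9_conj h hP
  rwa [Matrix.conjTranspose_conjTranspose] at h1

lemma smoothAt' {A B P : Mat} (h : ((A * P * B)ᴴ * (A * P * B)) 0 0 ≠ 0) :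
    ContDiffAt ℝ ∞ (fun P : Mat => Xi9 (A * P * B)) P := by
  have h1 := contDiffAt_Xi9 h
  have h2 : ContDiffAt ℝ ∞ (fun P : Mat => A * P * B) P := (contDiff_conj A B).contDiffAt
  exact ContDiffAt.comp (g := Xi9) (f := fun P : Mat => A * P * B) P h1 h2

/-- the composition `P ↦ Xi9 (Uᴴ P U)` is smooth at the points of `O`. -/
lemma smoothAt (D : CD9 Q) {P : Mat} (h : ((D.Uᴴ * P * D.U)ᴴ * (D.Uᴴ * P * D.U)) 0 0 ≠ 0) :
    ContDiffAt ℝ ∞ (fun P : Mat => Xi9 (D.Uᴴ * P * D.U)) P :=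
  smoothAt' h

end P2aux

open P2aux

theorem CD9.isOpen_O (D : CD9 Q) : IsOpen D.O := by
  rw [isOpen_iff_mem_nhds]
  rintro P ⟨h1, h2⟩
  have c1 : ContinuousAt (fun P : Mat => ((D.Uᴴ * P * D.U)ᴴ * (D.Uᴴ * P * D.U)) 0 0) P :=
    (cont_gram.comp (contDiff_conj D.Uᴴ D.U).continuous).continuousAt
  have c2 : ContinuousAt (fun P : Mat => kL9 0 D.y (Xi9 (D.Uᴴ * P * D.U)).2) P :=
    (kL9 0 D.y).continuous.continuousAt.comp
      (continuous_snd.continuousAt.comp (smoothAt D h1).continuousAt)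
  filter_upwards [c1.eventually_ne h1, c2.eventually (lt_mem_nhds h2)] with R hR1 hR2
  exact ⟨hR1, hR2⟩

theorem CD9.mem_O (D : CD9 Q) : Q ∈ D.O := by
  have e : D.Uᴴ * Q * D.U = Th9 (0, D.y) :=
    (congrArg (fun R => D.Uᴴ * R * D.U) D.hQ).trans (conj_conj D.hU _)
  have hx : ((0, D.y) : V × Y9).2 ≠ 0 := y_ne D
  have hn : (nz (0 : V) : ℂ) ≠ 0 := by exact_mod_cast (nz_pos (0 : V)).ne'
  refine ⟨?_, ?_⟩
  · rw [e, Th9_gram hx, Matrix.smul_apply, Matrix.vecMulVec_apply, Pi.star_apply]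
    have h0 : Zv ((0, D.y) : V × Y9).1 0 = 1 := rfl
    rw [h0, star_one, mul_one, smul_eq_mul, mul_one]
    exact inv_ne_zero hn
  · rw [e, Xi9_Th9 hx]
    have h1 := fn9_pos hx
    show 0 < kL9 0 D.y ((Real.sqrt (fn9 (0, D.y)))⁻¹ • D.y)
    rw [map_smul, D.hy, smul_eq_mul, mul_one]
    positivity

theorem CD9.smooth_rho (D : CD9 Q) : ContDiffOn ℝ ∞ D.rho D.O := by
  rintro P ⟨h1, h2⟩
  apply ContDiffAt.contDiffWithinAt
  have s1 := smoothAt D h1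
  have s2 : ContDiffAt ℝ ∞ (fun P : Mat => (Xi9 (D.Uᴴ * P * D.U)).2) P := s1.snd
  have s3 : ContDiffAt ℝ ∞ (fun P : Mat => (Xi9 (D.Uᴴ * P * D.U)).1) P := s1.fst
  have s4 : ContDiffAt ℝ ∞ (fun P : Mat => kL9 0 D.y (Xi9 (D.Uᴴ * P * D.U)).2) P :=
    (kL9 0 D.y).contDiff.contDiffAt.comp P s2
  have s5 : ContDiffAt ℝ ∞ (fun P : Mat => D.sc (Xi9 (D.Uᴴ * P * D.U))) P :=
    s3.prodMk ((s4.inv h2.ne').smul s2)
  exact D.t.contDiff.contDiffAt.comp P (s5.sub contDiffAt_const)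

theorem CD9.psi_rho (D : CD9 Q) {P : Mat} (hP : P ∈ M9) (hO : P ∈ D.O) : D.psi (D.rho P) = P := by
  obtain ⟨h1, h2⟩ := hO
  obtain ⟨k1, -, k2⟩ := Th9_Xi9 (mem_conj D hP) h1
  have e1 : D.sg (D.rho P) = D.sc (Xi9 (D.Uᴴ * P * D.U)) := by
    rw [CD9.sg, CD9.rho, D.jt, add_sub_cancel]
    show kL9 0 D.y ((kL9 0 D.y (Xi9 (D.Uᴴ * P * D.U)).2)⁻¹ •
      (Xi9 (D.Uᴴ * P * D.U)).2 - D.y) = 0
    rw [map_sub, map_smul, D.hy, smul_eq_mul, inv_mul_cancel₀ h2.ne', sub_self]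
  rw [CD9.psi, e1, CD9.sc, Th9_smul (inv_pos.2 h2), Prod.mk.eta, k2]
  exact conj_conj' D.hU P

end Pool.Agent.Helper46.M9
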