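import Pool.Agent.Helper46.M9.St.N7
import Pool.Agent.Helper46.M9.St.N8
import Pool.Agent.Helper46.M8.Ns

/-!
# M9: change of the parametrisation
-/

open Filter Metric Module Set
open scoped Topology ContDiff Matrix Matrix.Norms.Elementwise ComplexConjugate Manifold

set_option maxSynthPendingDepth 3

namespace Pool.Agent.Helper46.M9
open Pool.Agent.Helper20.PC Pool.Agent.Helper20.HP Pool.Agent.Helper20.M8 Pool.Agent.Helper20.MB
open Pool.Agent.Helper46.M8 Pool.Agent.Helper81.M9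

/-- normalisation of the vector of the fibre. -/
noncomputable def nrm9 (x : V × Y9) : V × Y9 := (x.1, (Real.sqrt (kL9 x.1 x.2 x.2))⁻¹ • x.2)

private lemma q2_unit {U U' : Mat} (hU : Uᴴ * U = 1) (hU' : U'ᴴ * U' = 1) :
    (U'ᴴ * U)ᴴ * (U'ᴴ * U) = 1 := by
  have h1 : U' * U'ᴴ = 1 := mul_eq_one_comm.1 hU'
  rw [Matrix.conjTranspose_mul, Matrix.conjTranspose_conjTranspose]
  calc Uᴴ * U' * (U'ᴴ * U) = Uᴴ * (U' * U'ᴴ) * U := by simp only [Matrix.mul_assoc]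
    _ = 1 := by rw [h1, Matrix.mul_one, hU]

private lemma q2_conj (U U' : Mat) (w : V × Y9) :
    U'ᴴ * ph9 U w * U' = (U'ᴴ * U) * Th9 w * (U'ᴴ * U)ᴴ := by
  rw [Matrix.conjTranspose_mul, Matrix.conjTranspose_conjTranspose, ph9]
  simp only [Matrix.mul_assoc]

private lemma q2_zero {g : Mat} {w : V × Y9} (hg : gᴴ * g = 1) (hw : w.2 ≠ 0)
    (h : ((g * Th9 w * gᴴ)ᴴ * (g * Th9 w * gᴴ)) 0 0 ≠ 0) : (g *ᵥ Zv w.1) 0 ≠ 0 := by
  intro h0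
  apply h
  have e : (g * Th9 w * gᴴ)ᴴ * (g * Th9 w * gᴴ) = g * ((Th9 w)ᴴ * Th9 w) * gᴴ := by
    rw [Matrix.conjTranspose_mul, Matrix.conjTranspose_mul, Matrix.conjTranspose_conjTranspose]
    calc g * ((Th9 w)ᴴ * gᴴ) * (g * Th9 w * gᴴ)
        = g * (Th9 w)ᴴ * (gᴴ * g) * (Th9 w * gᴴ) := by simp only [Matrix.mul_assoc]
      _ = _ := by rw [hg]; simp only [Matrix.mul_assoc, Matrix.mul_one]
  rw [e, Th9_gram hw, Matrix.mul_smul, Matrix.smul_mul, Matrix.mul_vecMulVec,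
    Matrix.vecMulVec_mul, Matrix.smul_apply, Matrix.vecMulVec_apply, h0, zero_mul, smul_zero]

private lemma q2_dmob_zero (g : Mat) (z : V) : dmob g z 0 = 0 := by
  have e : Wv 0 = 0 := by
    ext i
    fin_cases i <;> simp [Wv]
  ext i
  simp [dmob, e]

private lemma q2_ne {g : Mat} {w : V × Y9} (hg : gᴴ * g = 1) (hw : w.2 ≠ 0)
    (h : (g *ᵥ Zv w.1) 0 ≠ 0) : (Phi9 g w).2 ≠ 0 := by
  intro h0
  apply hw
  have h1 : w.2.1 = 0 := congrArg (fun y : Y9 => y.1) h0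
  have h2 : dmob g w.1 w.2.2 = 0 := congrArg (fun y : Y9 => y.2) h0
  have h3 := (dmob_inv hg h w.2.2).1
  rw [h2, q2_dmob_zero] at h3
  exact Prod.ext h1 h3.symm

/-! ### Q2 : change of the parametrisation -/
theorem ps9_ph9 {U U' : Mat} (hU : Uᴴ * U = 1) (hU' : U'ᴴ * U' = 1)
    {w : V × Y9} (hw : w.2 ≠ 0)
    (h : ((U'ᴴ * ph9 U w * U')ᴴ * (U'ᴴ * ph9 U w * U')) 0 0 ≠ 0) :
    ((U'ᴴ * U) *ᵥ Zv w.1) 0 ≠ 0 ∧ ps9 U' (ph9 U w) = nrm9 (Phi9 (U'ᴴ * U) w) := by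
  have hg := q2_unit hU hU'
  rw [q2_conj] at h
  have h0 := q2_zero hg hw h
  refine ⟨h0, ?_⟩
  rw [ps9, q2_conj, Th9_mob hg h0, Xi9_Th9 (q2_ne hg hw h0), nrm9, fn9_eq]

private lemma q2_ck (x : V × Y9) : ContDiffAt ℝ ∞ (fun w : V × Y9 => kL9 w.1 w.2 w.2) x := by
  have e : (fun w : V × Y9 => kL9 w.1 w.2 w.2) = fn9 := by
    funext w
    exact (fn9_eq w).symm
  rw [e]
  exact contDiff_fn9.contDiffAt

private lemma q2_fderiv_nrmz {x : V × Y9} (hx : x.2 ≠ 0) (a : V × Y9) :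
    ∃ t : ℝ, fderiv ℝ nrm9 x a = (a.1, (Real.sqrt (kL9 x.1 x.2 x.2))⁻¹ • a.2 + t • x.2) := by
  have hk := kL9_pos x.1 hx
  have hf : ContDiffAt ℝ ∞ (fun w : V × Y9 => (Real.sqrt (kL9 w.1 w.2 w.2))⁻¹) x :=
    ((q2_ck x).sqrt hk.ne').inv (Real.sqrt_ne_zero'.2 hk)
  have hd := (hf.differentiableAt (by simp)).hasFDerivAt
  have h2 : HasFDerivAt (fun w : V × Y9 => w.2) (ContinuousLinearMap.snd ℝ V Y9) x := hasFDerivAt_snd
  have h1 : HasFDerivAt (fun w : V × Y9 => w.1) (ContinuousLinearMap.fst ℝ V Y9) x := hasFDerivAt_fst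
  have h3 := h1.prodMk (hd.smul h2)
  refine ⟨fderiv ℝ (fun w : V × Y9 => (Real.sqrt (kL9 w.1 w.2 w.2))⁻¹) x a, ?_⟩
  have e : fderiv ℝ nrm9 x = _ := h3.fderiv
  rw [e]
  simp

theorem contDiffAt_nrm9 {x : V × Y9} (hx : x.2 ≠ 0) : ContDiffAt ℝ ∞ nrm9 x := by
  have hk := kL9_pos x.1 hx
  exact contDiffAt_fst.prodMk ((((q2_ck x).sqrt hk.ne').inv (Real.sqrt_ne_zero'.2 hk)).smul
    contDiffAt_snd)

variable {D : Mat → BD V Y9}

private lemma q2_scale (I : Inv9 D) {U : Mat} (hU : Uᴴ * U = 1) (η : ℝ)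
    {x : V × Y9} (hx : x.2 ≠ 0) (A B : V × Y9) :
    (D U).R η (nrm9 x) (fderiv ℝ nrm9 x A) (fderiv ℝ nrm9 x B) = (D U).R η x A B := by
  obtain ⟨ta, ha⟩ := q2_fderiv_nrmz hx A
  obtain ⟨tb, hb⟩ := q2_fderiv_nrmz hx B
  rw [ha, hb]
  obtain ⟨z, y⟩ := x
  obtain ⟨a1, a2⟩ := A
  obtain ⟨b1, b2⟩ := B
  have hk := kL9_pos z hx
  have G := I.good U hU z
  have hs : (Real.sqrt (kL9 z y y))⁻¹ ≠ 0 := inv_ne_zero (Real.sqrt_ne_zero'.2 hk)
  have k1 : ∀ a b, (D U).k z a b = (D U).k z b a := G.ksymm.self_of_nhds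
  have k2 : ∀ a b c d, (D U).S z a b c d = - (D U).S z b a c d :=
    G.S1.self_of_nhds
  have k3 : ∀ a b c d, (D U).S z a b c d = (D U).S z c d a b :=
    G.S2.self_of_nhds
  have hk' : (D U).k z y y ≠ 0 := by rw [I.k]; exact hk.ne'
  have key := (D U).R_scale η (x := z) (y := y) a1 b1 a2 b2 ta tb hs hk' k1 k2 k3
  set s := (Real.sqrt (kL9 z y y))⁻¹ with hsd
  have e1 : nrm9 (z, y) = (z, s • y) := rfl
  rw [e1]
  clear_value s
  simp only []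
  convert key using 3

theorem comp_eq9 (I : Inv9 D) {U U' : Mat} (hU : Uᴴ * U = 1) (hU' : U'ᴴ * U' = 1)
    (η : ℝ) {w : V × Y9} (hw : w.2 ≠ 0)
    (h : ((U'ᴴ * ph9 U w * U')ᴴ * (U'ᴴ * ph9 U w * U')) 0 0 ≠ 0) (a b : V × Y9) :
    (D U).R η w a b = (D U').R η (ps9 U' (ph9 U w))
      (fderiv ℝ (ps9 U') (ph9 U w) (fderiv ℝ (ph9 U) w a))
      (fderiv ℝ (ps9 U') (ph9 U w) (fderiv ℝ (ph9 U) w b)) := by
  have hg := q2_unit hU hU'
  obtain ⟨h0, h1⟩ := ps9_ph9 hU hU' hw h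
  have hne := q2_ne hg hw h0
  have hcont : ContinuousAt (ph9 U) w := (contDiffAt_ph9 U hw).continuousAt
  have hev : ps9 U' ∘ ph9 U =ᶠ[𝓝 w] nrm9 ∘ Phi9 (U'ᴴ * U) := by
    have e1 : ∀ᶠ w' : V × Y9 in 𝓝 w, w'.2 ≠ 0 := continuous_snd.continuousAt.eventually_ne hw
    have c2 : Continuous (fun Q : Mat => ((U'ᴴ * Q * U')ᴴ * (U'ᴴ * Q * U')) 0 0) := by
      have c3 : Continuous (fun Q : Mat => (U'ᴴ * Q * U')ᴴ * (U'ᴴ * Q * U')) := by fun_prop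
      exact (continuous_apply (0 : Fin 3)).comp ((continuous_apply (0 : Fin 3)).comp c3)
    have e2 : ∀ᶠ w' : V × Y9 in 𝓝 w,
        ((U'ᴴ * ph9 U w' * U')ᴴ * (U'ᴴ * ph9 U w' * U')) 0 0 ≠ 0 :=
      (c2.continuousAt.comp hcont).eventually_ne h
    filter_upwards [e1, e2] with w' h3 h4
    exact (ps9_ph9 hU hU' h3 h4).2
  have dps : DifferentiableAt ℝ (ps9 U') (ph9 U w) :=
    (contDiffAt_ps9 h).differentiableAt (by simp)
  have dph : DifferentiableAt ℝ (ph9 U) w := (contDiffAt_ph9 U hw).differentiableAt (by simp)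
  have dnr : DifferentiableAt ℝ nrm9 (Phi9 (U'ᴴ * U) w) :=
    (contDiffAt_nrm9 hne).differentiableAt (by simp)
  have dPh : DifferentiableAt ℝ (Phi9 (U'ᴴ * U)) w := (contDiffAt_Phi9 h0).differentiableAt (by simp)
  have hfd : ∀ a, fderiv ℝ (ps9 U') (ph9 U w) (fderiv ℝ (ph9 U) w a)
      = fderiv ℝ nrm9 (Phi9 (U'ᴴ * U) w) (dPhi9 (U'ᴴ * U) w a) := by
    intro a
    have e1 := hev.fderiv_eq (𝕜 := ℝ)
    rw [fderiv_comp w dps dph, fderiv_comp w dnr dPh] at e1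
    have e2 := congrArg (fun L : (V × Y9) →L[ℝ] (V × Y9) => L a) e1
    simp only [ContinuousLinearMap.comp_apply] at e2
    rw [fderiv_Phi9 h0] at e2
    exact e2
  rw [hfd a, hfd b, h1, q2_scale I hU' η hne]
  have hUU : U * (U'ᴴ * U)ᴴ = U' := by
    have h2 : U * Uᴴ = 1 := mul_eq_one_comm.1 hU
    rw [Matrix.conjTranspose_mul, Matrix.conjTranspose_conjTranspose, ← Matrix.mul_assoc, h2,
      Matrix.one_mul]
  have hR := R_mob9 I (U := U) (g := U'ᴴ * U) (x := w) hU hg h0 hw η a b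
  rw [hUU] at hR
  exact hR.symm

end Pool.Agent.Helper46.M9
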