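import Pool.Agent.Helper46.M9.St.Q2
import Pool.Agent.Helper46.M9.St.P1
import Pool.Agent.Helper46.M9.St.P2
import Pool.Agent.Helper46.M8.St.R1
import Pool.Agent.Helper46.M8.Ns

/-!
# M9: the family of parametrisations, the result from an invariant family of data
-/

open Filter Metric Module Set
open scoped Topology ContDiff Matrix Matrix.Norms.Elementwise ComplexConjugate Manifold

set_option maxSynthPendingDepth 3

namespace Pool.Agent.Helper46.M9
open Pool.Agent.Helper20.PC Pool.Agent.Helper20.HP Pool.Agent.Helper20.M8 Pool.Agent.Helper20.MB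
open Pool.Agent.Helper46.M8 Pool.Agent.Helper81.M9

/-! ### Q3 : the family of parametrisations -/
open Classical in
/-- the unitary matrix used at `Q`. -/
noncomputable def jU9 (Q : M9) : {U : Mat // Uᴴ * U = 1} :=
  ⟨(exists_jj9 Q.2).choose, (exists_jj9 Q.2).choose_spec.1⟩

variable {D : Mat → BD V Y9}

set_option maxRecDepth 20000 in
theorem M9_fam (I : Inv9 D) {η : ℝ}
    (h1 : ∀ U : Mat, Uᴴ * U = 1 → ∀ y : Y9, (D U).k 0 y y = 1 →
      (∀ a, a ≠ 0 → 0 < fibL (D U).k (D U).S η (0, y) a a) ∧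
      ∀ u v : V × Y9, (D U).k 0 y (u.2 + (D U).A 0 u.1 y) = 0 →
        (D U).k 0 y (v.2 + (D U).A 0 v.1 y) = 0 → LinearIndependent ℝ ![u, v] →
        0 < num ((D U).G η) (0, y) u v) :
    Fam M9 η (fun j : {U : Mat // Uᴴ * U = 1} => D j.1) (fun j => ph9 j.1)
      (fun j => ps9 j.1) jU9 := by
  have hc : ∀ p : M9, (((jU9 p).1ᴴ * (p : Mat) * (jU9 p).1)ᴴ
      * ((jU9 p).1ᴴ * (p : Mat) * (jU9 p).1)) 0 0 ≠ 0 := fun p => (exists_jj9 p.2).choose_spec.2.1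
  have hz : ∀ p : M9, (ps9 (jU9 p).1 (p : Mat)).1 = 0 := fun p => (exists_jj9 p.2).choose_spec.2.2
  have hk : ∀ p : M9, (D (jU9 p).1).k (ps9 (jU9 p).1 (p : Mat)).1 (ps9 (jU9 p).1 (p : Mat)).2
      (ps9 (jU9 p).1 (p : Mat)).2 = 1 := fun p => by
    rw [I.k]
    exact (ph9_ps9 (jU9 p).2 p.2 (hc p)).2
  have hk0 : ∀ p : M9, (D (jU9 p).1).k 0 (ps9 (jU9 p).1 (p : Mat)).2
      (ps9 (jU9 p).1 (p : Mat)).2 = 1 := fun p => by
    have := hk p
    rwa [hz p] at this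
  have hy : ∀ p : M9, (ps9 (jU9 p).1 (p : Mat)).2 ≠ 0 := fun p h => by
    have := hk p
    rw [h] at this
    simp at this
  have hpr : ∀ p : M9, ps9 (jU9 p).1 (p : Mat) = (0, (ps9 (jU9 p).1 (p : Mat)).2) := fun p =>
    Prod.ext (hz p) rfl
  have hnear : ∀ p : M9, ∀ᶠ w in 𝓝 (ps9 (jU9 p).1 (p : Mat)), w.2 ≠ 0 := fun p =>
    continuous_snd.continuousAt.eventually_ne (hy p)
  refine ⟨?_, ?_, ?_, ?_, ?_, ?_, ?_, ?_, ?_, ?_⟩
  · exact fun p => contDiffAt_ph9 _ (hy p)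
  · exact fun p => contDiffAt_ps9 (hc p)
  · exact fun p => (hnear p).mono fun w hw => ph9_mem (jU9 p).2 hw
  · intro p
    have hcont : Continuous (fun q : Mat => (((jU9 p).1ᴴ * q * (jU9 p).1)ᴴ
      * ((jU9 p).1ᴴ * q * (jU9 p).1)) 0 0) := by fun_prop
    filter_upwards [hcont.continuousAt.eventually_ne (hc p)] with q hq hqS
    exact (ph9_ps9 (jU9 p).2 hqS hq).1
  · intro p
    filter_upwards [lt_mem_nhds (zero_lt_one (α := ℝ))] with t ht
    exact ph9_smul _ ht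
  · exact fun p => I.good _ (jU9 p).2 _
  · exact fun p => hk p
  · intro p a ha
    have := (h1 (jU9 p).1 (jU9 p).2 _ (hk0 p)).1 a ha
    rw [← hpr p] at this
    exact this
  · intro p u v hu hv huv
    have := (h1 (jU9 p).1 (jU9 p).2 _ (hk0 p)).2 u v
    rw [← hpr p] at this
    have hu' : (D (jU9 p).1).k (ps9 (jU9 p).1 (p : Mat)).1 (ps9 (jU9 p).1 (p : Mat)).2
        (u.2 + (D (jU9 p).1).A (ps9 (jU9 p).1 (p : Mat)).1 u.1
          (ps9 (jU9 p).1 (p : Mat)).2) = 0 := hu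
    have hv' : (D (jU9 p).1).k (ps9 (jU9 p).1 (p : Mat)).1 (ps9 (jU9 p).1 (p : Mat)).2
        (v.2 + (D (jU9 p).1).A (ps9 (jU9 p).1 (p : Mat)).1 v.1
          (ps9 (jU9 p).1 (p : Mat)).2) = 0 := hv
    rw [hz p] at hu' hv'
    exact this hu' hv' huv
  · intro p
    filter_upwards [hnear p] with w hw q hq a b
    have hq' : (q : Mat) = ph9 (jU9 p).1 w := hq
    have h := hc q
    rw [hq'] at h
    have := comp_eq9 I (jU9 p).2 (jU9 q).2 η hw h a b
    rw [← hq'] at this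
    exact this

theorem M9_of_fam (I : Inv9 D) {η : ℝ}
    (h1 : ∀ U : Mat, Uᴴ * U = 1 → ∀ y : Y9, (D U).k 0 y y = 1 →
      (∀ a, a ≠ 0 → 0 < fibL (D U).k (D U).S η (0, y) a a) ∧
      ∀ u v : V × Y9, (D U).k 0 y (u.2 + (D U).A 0 u.1 y) = 0 →
        (D U).k 0 y (v.2 + (D U).A 0 v.1 y) = 0 → LinearIndependent ℝ ![u, v] →
        0 < num ((D U).G η) (0, y) u v) :
    ∃ (_ : ChartedSpace (EuclideanSpace ℝ (Fin 9)) M9) (_ : IsManifold (𝓡 9) ∞ M9),
    (∀ i j, ContMDiff (𝓡 9) 𝓘(ℝ, ℂ) ∞ (fun Q : M9 => (Q : Mat) i j)) ∧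
    (∀ (p : M9) (u : TangentSpace (𝓡 9) p),
      (∀ i j, mfderiv (𝓡 9) 𝓘(ℝ, ℂ) (fun Q : M9 => (Q : Mat) i j) p u = 0) → u = 0) ∧
    AdmitsPositiveCurvature (𝓡 9) M9 := by
  have fam := M9_fam I h1
  let D' : ∀ q : M9, CD9 (q : Mat) := fun q => (exists_CD9 q.2).some
  let P : PAtlas Mat E9 M9 M9 :=
    { O := fun q => (D' q).O
      T := fun _ => univ
      f := fun q => (D' q).rho
      g := fun q => (D' q).psi
      hO := fun q => (D' q).isOpen_O
      hT := fun _ => isOpen_univ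
      hf := fun q => (D' q).smooth_rho
      hg := fun q => (D' q).smooth_psi.contDiffOn
      maps_f := fun _ _ _ _ => mem_univ _
      maps_g := fun q z _ => ⟨(D' q).psi_mem z, (D' q).psi_mem' z⟩
      left := fun q _ hp hO => (D' q).psi_rho hp hO
      right := fun q z _ => (D' q).rho_psi z
      idx := id
      mem := fun p => (D' p).mem_O
      base := ⟨ph9 1 (0, (1, 0)), ph9_mem (by simp) (by simp)⟩ }
  refine ⟨(inferInstance : ChartedSpace E9 P.Man),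
    (inferInstance : IsManifold 𝓘(ℝ, E9) ∞ P.Man), ?_, ?_, ?_⟩
  · exact fun i j => R1_smooth P (entryL i j)
  · exact fun p u h => R1_immersion P (fun k : Fin 3 × Fin 3 => entryL k.1 k.2)
      (fun a ha => by funext i j; exact ha (i, j)) p u (fun k => h k.1 k.2)
  · exact Fam.admits P fam

lemma finrank_Y9 : finrank ℝ Y9 = 6 := by
  have h := finrank_real_of_complex (E := V)
  have h1 : finrank ℝ Y9 = finrank ℝ ℂ + finrank ℝ V := by
    rw [← Module.finrank_prod]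
  rw [h1, h, Complex.finrank_real_complex]
  simp

lemma finrank_V9 : finrank ℝ V = 4 := by
  have h := finrank_real_of_complex (E := V)
  rw [h]
  simp

/-- **the result from an invariant family of data**. -/
theorem M9_of_data (I : Inv9 D) {c₀ b : ℝ} (hc₀ : 0 < c₀)
    (HB : ∀ U : Mat, Uᴴ * U = 1 → (D U).Bdd 0 b)
    (HT : ∀ U : Mat, Uᴴ * U = 1 → (D U).TT 0 c₀) :
    ∃ (_ : ChartedSpace (EuclideanSpace ℝ (Fin 9)) M9) (_ : IsManifold (𝓡 9) ∞ M9),
    (∀ i j, ContMDiff (𝓡 9) 𝓘(ℝ, ℂ) ∞ (fun Q : M9 => (Q : Mat) i j)) ∧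
    (∀ (p : M9) (u : TangentSpace (𝓡 9) p),
      (∀ i j, mfderiv (𝓡 9) 𝓘(ℝ, ℂ) (fun Q : M9 => (Q : Mat) i j) p u = 0) → u = 0) ∧
    AdmitsPositiveCurvature (𝓡 9) M9 := by
  have hV : 2 ≤ finrank ℝ V := by rw [finrank_V9]; norm_num
  have hY : 3 ≤ finrank ℝ Y9 := by rw [finrank_Y9]; norm_num
  obtain ⟨η₀, hη₀, H⟩ := collapse (V := V) (Y := Y9) hV hY (b := b) hc₀
  exact M9_of_fam I (η := η₀) fun U hU y hy =>
    H η₀ hη₀ le_rfl (D U) 0 (I.good U hU 0) (HB U hU) (HT U hU) y hy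

end Pool.Agent.Helper46.M9
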