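import Pool.Agent.Helper46.M9.St.T1
import Pool.Agent.Helper46.M8.St.T3
import Pool.Agent.Helper46.M8.Ns

/-!
# M9, pieces T2, T3
-/

open Filter Metric Module Set
open scoped Topology ContDiff Matrix Matrix.Norms.Elementwise ComplexConjugate Manifold

set_option maxSynthPendingDepth 3

namespace Pool.Agent.Helper46.M9
open Pool.Agent.Helper20.PC Pool.Agent.Helper20.HP Pool.Agent.Helper20.M8 Pool.Agent.Helper20.MB
open Pool.Agent.Helper46.M8 Pool.Agent.Helper46.M8.T2aux Pool.Agent.Helper46.M8.T3aux T1 Pool.Agent.Helper81.M9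

theorem Xi9_Th9 {x : V × Y9} (hx : x.2 ≠ 0) :
    Xi9 (Th9 x) = (x.1, (Real.sqrt (fn9 x))⁻¹ • x.2) := by
  have hn : (nz x.1 : ℂ) ≠ 0 := by exact_mod_cast (nz_pos x.1).ne'
  have hz : zX (Th9 x) = x.1 := zX_of (inv_ne_zero hn) (Th9_gram hx)
  have ht : (Th9 x).trace = (Real.sqrt (fn9 x))⁻¹ • x.2.1 := by
    rw [Th9_trace, Complex.real_smul]
  have hw : wX9 (Th9 x) = (Real.sqrt (fn9 x))⁻¹ • x.2.2 := by
    funext i
    rw [wX9, hz, Matrix.sub_mulVec, Matrix.smul_mulVec, Th9_gram hx, Matrix.smul_mulVec,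
      vmv_mulVec, T1aux.zz, Th9_eq, vmv_mulVec, T1aux.zz]
    simp only [Pi.sub_apply, Pi.smul_apply, smul_eq_mul, Zv_zero, Zv_succ]
    rw [bv9]
    simp only [Pi.sub_apply, Pi.smul_apply, Pi.add_apply, smul_eq_mul, Zv_zero, Zv_succ,
      Wv_zero, Wv_succ]
    rw [Complex.real_smul]
    field_simp
    ring
  rw [Xi9, hz, ht, hw]
  rfl

theorem Th9_Xi9 {Q : Mat} (hQ : Q ∈ M9) (h : (Qᴴ * Q) 0 0 ≠ 0) :
    (Xi9 Q).2 ≠ 0 ∧ fn9 (Xi9 Q) = 1 ∧ Th9 (Xi9 Q) = Q := by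
  obtain ⟨hQ1, hQ2⟩ := hQ
  have hBB : (Qᴴ * Q) * (Qᴴ * Q) = Qᴴ * Q := by
    calc (Qᴴ * Q) * (Qᴴ * Q) = Qᴴ * (Q * Qᴴ * Q) := by simp only [Matrix.mul_assoc]
      _ = Qᴴ * Q := by rw [hQ1]
  have hBH : (Qᴴ * Q)ᴴ = Qᴴ * Q := by
    rw [Matrix.conjTranspose_mul, Matrix.conjTranspose_conjTranspose]
  have hr := rank_one hBB hBH hQ2 h
  set b : ℂ := (Qᴴ * Q) 0 0 with hb
  have hbs : star b = b := by
    have := congrFun (congrFun hBH 0) 0
    rwa [Matrix.conjTranspose_apply] at this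
  set z : V := zX Q with hz
  have hv : (Qᴴ * Q) *ᵥ Pi.single 0 1 = b • Zv z := by
    funext i
    rw [Matrix.mulVec_single_one, Matrix.col_apply, Pi.smul_apply, smul_eq_mul]
    refine Fin.cases ?_ (fun i => ?_) i
    · rw [Zv_zero, mul_one]
    · rw [Zv_succ, hz, zX, ← hb]
      field_simp
  have hB : Qᴴ * Q = b • Matrix.vecMulVec (Zv z) (star (Zv z)) := by
    rw [hr, hv, star_smul, hbs, Matrix.smul_vecMulVec, Matrix.vecMulVec_smul, smul_smul, smul_smul,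
      inv_mul_cancel₀ h, one_mul]
  have hn0 : (nz z : ℂ) ≠ 0 := by exact_mod_cast (nz_pos z).ne'
  have hbn : b * (nz z : ℂ) = 1 := by
    have := hQ2
    rw [hB, Matrix.trace_smul, Matrix.trace_vecMulVec, dotProduct_comm, T1aux.zz, smul_eq_mul]
      at this
    exact this
  set q : Fin 3 → ℂ := b • (Q *ᵥ Zv z) with hq
  have hQq : Q = Matrix.vecMulVec q (star (Zv z)) := by
    conv_lhs => rw [← hQ1, Matrix.mul_assoc, hB, Matrix.mul_smul, Matrix.mul_vecMulVec]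
    rw [hq, Matrix.smul_vecMulVec]
  set t : ℂ := Q.trace with ht
  have htr : star (Zv z) ⬝ᵥ q = t := by
    rw [ht]
    conv_rhs => rw [hQq, Matrix.trace_vecMulVec, dotProduct_comm]
  set w : V := wX9 Q with hw
  have hwi : ∀ i : Fin 2, w i = (nz z : ℂ) * (q i.succ - z i * q 0) := by
    intro i
    have hQz : Q *ᵥ Zv z = (nz z : ℂ) • q := by
      rw [hq, smul_smul, mul_comm, hbn, one_smul]
    rw [hw, wX9, ← hz, ← ht, Matrix.sub_mulVec, Matrix.smul_mulVec, hB, Matrix.smul_mulVec,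
      vmv_mulVec, T1aux.zz, hQz, smul_smul b, hbn, one_smul]
    simp only [Pi.sub_apply, Pi.smul_apply, smul_eq_mul, Zv_zero, Zv_succ]
    ring
  have hnq : (nz z : ℂ) • q = Wv w + ((nz z : ℂ) * q 0) • Zv z := by
    funext i
    refine Fin.cases ?_ (fun i => ?_) i
    · simp only [Pi.smul_apply, Pi.add_apply, smul_eq_mul, Wv_zero, Zv_zero]
      ring
    · simp only [Pi.smul_apply, Pi.add_apply, smul_eq_mul, Wv_succ, Zv_succ, hwi]
      ring
  have hq0 : q 0 = t / (nz z : ℂ) - hip z w / (nz z : ℂ) ^ 2 := by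
    have h1 := congrArg (fun u => star (Zv z) ⬝ᵥ u) hnq
    simp only [dotProduct_smul, dotProduct_add, htr, T1aux.zz, T1aux.zw, smul_eq_mul] at h1
    field_simp
    linear_combination -h1
  have hqq : q = (t / (nz z : ℂ) - hip z w / (nz z : ℂ) ^ 2) • Zv z
      + (1 / (nz z : ℂ)) • Wv w := by
    have h1 : q = (1 / (nz z : ℂ)) • ((nz z : ℂ) • q) := by
      rw [smul_smul, one_div, inv_mul_cancel₀ hn0, one_smul]
    rw [h1, hnq, hq0, smul_add, smul_smul, add_comm]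
    congr 2
    field_simp
  have hXi : Xi9 Q = (z, (t, w)) := rfl
  have hcc : (Xi9 Q).2.1 = t := rfl
  have hfn : fn9 (Xi9 Q) = 1 := by
    have h1 : star q ⬝ᵥ q = b := by
      have h2 : Qᴴ * Q = (star q ⬝ᵥ q) • Matrix.vecMulVec (Zv z) (star (Zv z)) := by
        conv_lhs => rw [hQq, Matrix.conjTranspose_vecMulVec, star_star,
          Matrix.vecMulVec_mul_vecMulVec, Matrix.vecMulVec_smul]
      have h3 := congrFun (congrFun h2 0) 0
      rw [← hb, Matrix.smul_apply, Matrix.vecMulVec_apply, Pi.star_apply, Zv_zero, star_one,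
        mul_one, smul_eq_mul, mul_one] at h3
      exact h3.symm
    have h2 : (fn9 (Xi9 Q) : ℂ) = (nz z : ℂ) * (star q ⬝ᵥ q) := by
      rw [fn9_cast, hcc, hXi, hqq]
      simp only [star_smul, star_add, smul_dotProduct, dotProduct_smul, add_dotProduct,
        dotProduct_add, T1aux.zz, T1aux.zw, T1aux.wz, T1aux.ww, smul_eq_mul, star_sub, star_div₀,
        star_one, star_pow, T1aux.hip_conj]
      have e3 : star ((nz z : ℂ)) = (nz z : ℂ) := by
        rw [RCLike.star_def, Complex.conj_ofReal]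
      rw [e3]
      field_simp
      ring
    have h3 : (fn9 (Xi9 Q) : ℂ) = 1 := by rw [h2, h1, mul_comm, hbn]
    exact_mod_cast h3
  have hx : (Xi9 Q).2 ≠ 0 := by
    intro h1
    have : fn9 (Xi9 Q) = 0 := by
      rw [fn9, h1]
      simp
    rw [hfn] at this
    exact one_ne_zero this
  refine ⟨hx, hfn, ?_⟩
  rw [Th9_eq]
  conv_rhs => rw [hQq]
  have hz' : (Xi9 Q).1 = z := rfl
  rw [hz']
  congr 1
  rw [bv9, hfn, Real.sqrt_one, inv_one, Complex.ofReal_one, one_smul, hcc, hXi, hqq]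
  simp only
  rw [smul_sub, smul_smul, smul_smul, sub_smul]
  have e1 : ((nz z : ℂ) ^ 2)⁻¹ * (nz z : ℂ) = 1 / (nz z : ℂ) := by field_simp
  have e2 : ((nz z : ℂ) ^ 2)⁻¹ * hip z w = hip z w / (nz z : ℂ) ^ 2 := by
    field_simp
  rw [e1, e2]
  abel

end Pool.Agent.Helper46.M9
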